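import Pool.Agent.Helper20.CE.Defs

/-!
# CE-F: from controlled families of vectors to a coarse embedding

`Λ` is countable: let `K n` be an increasing sequence of finite sets with union `Λ`. For each `n` take `E n`, `ζ n` with `‖ζ n s - ζ n t‖ ≤ 2⁻ⁿ` for `s⁻¹ t ∈ K n`.
`W = lp E 2` (Hilbert sum of the `E n`; it is an inner product space over `ℝ`, `lp` of a family, Mathlib `Mathlib/Analysis/InnerProductSpace/l2Space.lean`; completeness is not
needed for the inner product, check) and `F s = (n ↦ ζ n s - ζ n 1)`; it is in `ℓ²` since `‖ζ n s - ζ n 1‖ ≤ 2⁻ⁿ` as soon as `s⁻¹ ∈ K n`.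
`‖F s - F t‖² = ∑' n, ‖ζ n s - ζ n t‖²`.
* upper bound: for a finite `K` there is `n₀` with `K ⊆ K n` for `n ≥ n₀`: `‖F s - F t‖² ≤ 4 n₀ + ∑ 4⁻ⁿ ≤ 4 n₀ + 2`.
* lower bound: given `R` take `m > R²` and `K' = ⋃_{n ≤ m} B n`: if `s⁻¹ t ∉ K'` then `‖F s - F t‖² ≥ m + 1 > R²`.
* invariance: termwise.
-/

set_option autoImplicit false

namespace Pool.MP_501efe_an.H20

theorem assemble {Λ H : Type} [Group Λ] [Countable Λ] [Group H] (q : Λ →* H)
    (h : ∀ (K : Finset Λ) (ε : ℝ), 0 < ε → ∃ (E : Type) (_ : NormedAddCommGroup E) (_ : InnerProductSpace ℝ E) (ζ : Λ → E),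
      (∀ s t : Λ, s⁻¹ * t ∈ K → ‖ζ s - ζ t‖ ≤ ε) ∧
      (∃ B : Finset Λ, ∀ s t : Λ, s⁻¹ * t ∉ B → 1 ≤ ‖ζ s - ζ t‖) ∧
      (∀ s t : Λ, ‖ζ s - ζ t‖ ≤ 2) ∧
      ∀ m s t : Λ, q m = 1 → ‖ζ (m * s) - ζ (m * t)‖ = ‖ζ s - ζ t‖) :
    EqCE q := by
  classical
  obtain ⟨e, he⟩ := exists_surjective_nat Λ
  set K : ℕ → Finset Λ := fun n => (Finset.range (n + 1)).image e with hK
  have hKx : ∀ x : Λ, ∃ n₀ : ℕ, ∀ n, n₀ ≤ n → x ∈ K n := by
    intro x
    obtain ⟨n₀, rfl⟩ := he x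
    exact ⟨n₀, fun n hn => Finset.mem_image.2 ⟨n₀, Finset.mem_range.2 (by omega), rfl⟩⟩
  have hKF : ∀ S : Finset Λ, ∃ n₀ : ℕ, ∀ n, n₀ ≤ n → ∀ x ∈ S, x ∈ K n := by
    intro S
    choose m hm using hKx
    refine ⟨S.sup m, fun n hn x hx => hm x n ((Finset.le_sup hx).trans hn)⟩
  choose E i1 i2 ζ h1 h2 h3 h4 using fun n : ℕ => h (K n) ((1 / 2) ^ n) (by positivity)
  choose B hB using h2
  have hsum : ∀ s t : Λ, Summable fun n => ‖ζ n s - ζ n t‖ ^ 2 := by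
    intro s t
    obtain ⟨n₀, hn₀⟩ := hKx (s⁻¹ * t)
    refine Summable.of_norm_bounded_eventually_nat (g := fun n : ℕ => (1 / 4 : ℝ) ^ n)
      (summable_geometric_of_lt_one (by norm_num) (by norm_num)) ?_
    filter_upwards [Filter.eventually_ge_atTop n₀] with n hn
    have k1 := h1 n s t (hn₀ n hn)
    rw [Real.norm_of_nonneg (by positivity)]
    calc ‖ζ n s - ζ n t‖ ^ 2 ≤ ((1 / 2 : ℝ) ^ n) ^ 2 := pow_le_pow_left₀ (norm_nonneg _) k1 2
      _ = (1 / 4 : ℝ) ^ n := by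
        rw [← pow_mul, mul_comm, pow_mul]
        norm_num
  have h2r : (2 : ENNReal).toReal = 2 := by norm_num
  have hmem : ∀ s : Λ, Memℓp (fun n => ζ n s - ζ n 1) 2 := by
    intro s
    refine memℓp_gen ?_
    rw [h2r]
    refine (hsum s 1).congr fun n => ?_
    rw [← Real.rpow_natCast]
    norm_num
  set F : Λ → lp E 2 := fun s => ⟨fun n => ζ n s - ζ n 1, hmem s⟩ with hF
  have hnorm : ∀ s t : Λ, ‖F s - F t‖ ^ 2 = ∑' n, ‖ζ n s - ζ n t‖ ^ 2 := by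
    intro s t
    have k1 := lp.norm_rpow_eq_tsum (p := 2) (by rw [h2r]; norm_num) (F s - F t)
    rw [h2r] at k1
    have k2 : ‖F s - F t‖ ^ (2 : ℝ) = ‖F s - F t‖ ^ 2 := by
      rw [← Real.rpow_natCast]
      norm_num
    rw [← k2, k1]
    refine tsum_congr fun n => ?_
    have k3 : (F s - F t) n = ζ n s - ζ n t := by
      rw [lp.coeFn_sub, Pi.sub_apply]
      show ζ n s - ζ n 1 - (ζ n t - ζ n 1) = _
      abel
    rw [k3, ← Real.rpow_natCast]
    norm_num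
  refine ⟨lp E 2, inferInstance, inferInstance, F, ?_, ?_, ?_⟩
  · intro S
    obtain ⟨n₀, hn₀⟩ := hKF S
    have hg : Summable fun n : ℕ => (if n < n₀ then (4 : ℝ) else 0) + (1 / 4 : ℝ) ^ n := by
      refine Summable.add ?_ (summable_geometric_of_lt_one (by norm_num) (by norm_num))
      refine summable_of_ne_finset_zero (s := Finset.range n₀) fun n hn => ?_
      rw [if_neg (by rwa [Finset.mem_range] at hn)]
    refine ⟨Real.sqrt (∑' n : ℕ, ((if n < n₀ then (4 : ℝ) else 0) + (1 / 4 : ℝ) ^ n)), fun x y hxy => ?_⟩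
    refine Real.le_sqrt_of_sq_le ?_
    rw [hnorm]
    refine (hsum x y).tsum_le_tsum (fun n => ?_) hg
    by_cases hn : n < n₀
    · rw [if_pos hn]
      have k1 := pow_le_pow_left₀ (norm_nonneg _) (h3 n x y) 2
      have k2 : (0 : ℝ) ≤ (1 / 4 : ℝ) ^ n := by positivity
      linarith
    · rw [if_neg hn, zero_add]
      have k1 := h1 n x y (hn₀ n (not_lt.1 hn) _ hxy)
      calc ‖ζ n x - ζ n y‖ ^ 2 ≤ ((1 / 2 : ℝ) ^ n) ^ 2 := pow_le_pow_left₀ (norm_nonneg _) k1 2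
        _ = (1 / 4 : ℝ) ^ n := by
          rw [← pow_mul, mul_comm, pow_mul]
          norm_num
  · intro R
    refine ⟨(Finset.range (⌈R ^ 2⌉₊ + 1)).biUnion B, fun x y hxy => ?_⟩
    by_contra hcon
    have k1 : ∀ n ∈ Finset.range (⌈R ^ 2⌉₊ + 1), (1 : ℝ) ≤ ‖ζ n x - ζ n y‖ ^ 2 := by
      intro n hn
      have k2 := hB n x y (fun hb => hcon (Finset.mem_biUnion.2 ⟨n, hn, hb⟩))
      exact one_le_pow₀ k2
    have k3 := Finset.sum_le_sum k1
    rw [Finset.sum_const, Finset.card_range, nsmul_eq_mul, mul_one] at k3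
    have k4 := (hsum x y).sum_le_tsum (Finset.range (⌈R ^ 2⌉₊ + 1)) (fun n _ => by positivity)
    rw [← hnorm] at k4
    have k5 : ‖F x - F y‖ ^ 2 ≤ R ^ 2 := pow_le_pow_left₀ (norm_nonneg _) hxy 2
    have k6 := Nat.le_ceil (R ^ 2)
    push_cast at k3
    linarith
  · intro m x y hm
    have k1 : ‖F (m * x) - F (m * y)‖ ^ 2 = ‖F x - F y‖ ^ 2 := by
      rw [hnorm, hnorm]
      exact tsum_congr fun n => by rw [h4 n m x y hm]
    exact (pow_left_inj₀ (norm_nonneg _) (norm_nonneg _) two_ne_zero).1 k1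

end Pool.MP_501efe_an.H20
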