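import Mathlib

/-!
# CE-B: positive definite kernels come from vectors (Moore, Kolmogorov)

Use `RKHS.OfKernel` of `Mathlib.Analysis.InnerProductSpace.Reproducing` with `V = 𝕜`: for a scalar kernel `K` take the operator valued matrix
`x y ↦ K x y • ContinuousLinearMap.id` (entries in `𝕜 →L[𝕜] 𝕜`), prove that it is positive semidefinite (`RKHS.posSemidef_tfae`), put it in a `Fact`, and take
`g x = RKHS.kerFun (RKHS.OfKernel K') x 1`; `RKHS.kernel_inner`, `RKHS.OfKernel.kernel_ofKernel` give the inner products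
(mind the order: `⟪kernel H x y v, w⟫ = ⟪kerFun H y v, kerFun H x w⟫`; if it comes out as `K y x` use the transposed kernel).

`moore_real`: the same for real kernels; the hypothesis is in elementary form.
-/

set_option autoImplicit false

namespace Pool.MP_501efe_an.H20

open scoped ComplexConjugate ComplexOrder

private theorem moore_gen26 {𝕜 : Type} [RCLike 𝕜] {X : Type} (K : X → X → 𝕜)
    (hs : ∀ x y, conj (K x y) = K y x)
    (hK : ∀ v : X →₀ 𝕜, 0 ≤ RCLike.re (v.sum fun x a => v.sum fun y b => conj a * K x y * b)) :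
    ∃ (E : Type) (_ : NormedAddCommGroup E) (_ : InnerProductSpace 𝕜 E) (_ : CompleteSpace E) (g : X → E),
      ∀ x y, inner 𝕜 (g x) (g y) = K x y := by
  set K' : Matrix X X (𝕜 →L[𝕜] 𝕜) := Matrix.of fun x y => K x y • (1 : 𝕜 →L[𝕜] 𝕜) with hK'
  have hH : K'.IsHermitian := by
    refine Matrix.IsHermitian.ext fun x y => ?_
    rw [hK', Matrix.of_apply, Matrix.of_apply, star_smul, star_one]
    congr 1
    exact hs y x
  have hP : K'.PosSemidef := by
    have h0 := (RKHS.posSemidef_tfae (K := K')).out 2 0
    refine h0.1 ⟨hH, fun v => ?_⟩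
    have h1 := hK v
    have h2 : (v.sum fun x w => v.sum fun x' w' => inner 𝕜 (K' x' x w) w') =
        v.sum fun x a => v.sum fun y b => conj a * K x y * b := by
      refine Finsupp.sum_congr fun x _ => Finsupp.sum_congr fun y _ => ?_
      rw [hK', Matrix.of_apply, FunLike.coe_smul, Pi.smul_apply, one_apply_eq_self,
        inner_smul_left, hs, RCLike.inner_apply]
      ring
    rw [h2]
    exact h1
  have : Fact K'.PosSemidef := ⟨hP⟩
  refine ⟨RKHS.OfKernel K', inferInstance, inferInstance, inferInstance,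
    fun x => RKHS.kerFun (RKHS.OfKernel K') x 1, fun x y => ?_⟩
  rw [← RKHS.kernel_inner, RKHS.OfKernel.kernel_ofKernel, hK', Matrix.of_apply, FunLike.coe_smul,
    Pi.smul_apply, one_apply_eq_self, inner_smul_left, hs, RCLike.inner_apply]
  simp

theorem moore {X : Type} (K : X → X → ℂ) (hK : (Matrix.of K).PosSemidef) :
    ∃ (E : Type) (_ : NormedAddCommGroup E) (_ : InnerProductSpace ℂ E) (_ : CompleteSpace E) (g : X → E),
      ∀ x y, inner ℂ (g x) (g y) = K x y := by
  refine moore_gen26 K (fun x y => ?_) fun v => ?_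
  · have h := hK.isHermitian.apply y x
    exact h
  · have h := hK.2 v
    exact (RCLike.nonneg_iff.1 h).1

theorem moore_real {X : Type} (K : X → X → ℝ) (hs : ∀ x y, K x y = K y x)
    (hK : ∀ (s : Finset X) (c : X → ℝ), 0 ≤ ∑ x ∈ s, ∑ y ∈ s, c x * c y * K x y) :
    ∃ (E : Type) (_ : NormedAddCommGroup E) (_ : InnerProductSpace ℝ E) (g : X → E),
      ∀ x y, inner ℝ (g x) (g y) = K x y := by
  obtain ⟨E, i1, i2, -, g, hg⟩ := moore_gen26 K (fun x y => by rw [conj_trivial]; exact hs x y)
    (fun v => by
      have h := hK v.support v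
      simp only [Finsupp.sum, conj_trivial, RCLike.re_to_real]
      refine h.trans_eq (Finset.sum_congr rfl fun x _ => Finset.sum_congr rfl fun y _ => ?_)
      ring)
  exact ⟨E, i1, i2, g, hg⟩

end Pool.MP_501efe_an.H20
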