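import Pool.Agent.Helper20.CE.Defs
import Pool.Agent.Helper20.CE.Moore

/-!
# CE-G: averaging over an amenable kernel

`N = ker p` amenable with mean `m`; first pass to a right invariant mean `m' f = m (fun n => f n⁻¹)`: `m' (fun n => f (n * a)) = m' f`.
`F : Γ → E` as in `CE Γ`. For `x y` the function `n ↦ ‖F (n x) - F (n y)‖²` on `N` is bounded, as `(n x)⁻¹ (n y) = x⁻¹ y`. Put `D x y = m' (n ↦ ‖F (n x) - F (n y)‖²)`.
`D (a x) (a y) = D x y` for `a ∈ N`. `K x y = (D x 1 + D y 1 - D x y) / 2 = m' (n ↦ ⟪F (n x) - F n, F (n y) - F n⟫)` is symmetric and positive definite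
(`∑ ∑ c_x c_y K x y = m' (n ↦ ‖∑ c_x (F (n x) - F n)‖²) ≥ 0`), so by `moore_real` there is `g : Γ → E'` with `⟪g x, g y⟫ = K x y`, and
`‖g x - g y‖² = K x x + K y y - 2 K x y = D x y` (`D x x = 0`, `D` symmetric). Upper bound: `D x y ≤ C²` if `‖F (n x) - F (n y)‖ ≤ C` for all `n`.
Lower bound: if `x⁻¹ y ∉ K'` (the finite set for `R`) then `‖F (n x) - F (n y)‖ > R ≥ 0` for all `n`, so `D x y ≥ R²`; to get the strict inequality
`‖g x - g y‖ > R` use the set for `R + 1` (or `|R| + 1`).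
-/

set_option autoImplicit false

namespace Pool.MP_501efe_an.H20

private def Bd27 {N : Type} (f : N → ℝ) : Prop := ∃ C, ∀ n, |f n| ≤ C

private structure RMean27 (N : Type) [Group N] (m : (N → ℝ) → ℝ) : Prop where
  add : ∀ f g : N → ℝ, Bd27 f → Bd27 g → m (f + g) = m f + m g
  smul : ∀ (c : ℝ) (f : N → ℝ), Bd27 f → m (c • f) = c * m f
  pos : ∀ f : N → ℝ, Bd27 f → (∀ n, 0 ≤ f n) → 0 ≤ m f
  one : m (fun _ => 1) = 1
  inv : ∀ (a : N) (f : N → ℝ), Bd27 f → m (fun n => f (n * a)) = m f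

private theorem exists_rmean27 {N : Type} [Group N] (h : Amen N) : ∃ m : (N → ℝ) → ℝ, RMean27 N m := by
  obtain ⟨m, h1, h2, h3, h4, h5⟩ := h
  have hb : ∀ f : N → ℝ, Bd27 f → ∃ C, ∀ n, |f n⁻¹| ≤ C := fun f ⟨C, hC⟩ => ⟨C, fun n => hC _⟩
  refine ⟨fun f => m (fun n => f n⁻¹), ⟨?_, ?_, ?_, ?_, ?_⟩⟩
  · intro f g hf hg
    exact h1 (fun n => f n⁻¹) (fun n => g n⁻¹) (hb f hf) (hb g hg)
  · intro c f hf
    exact h2 c (fun n => f n⁻¹) (hb f hf)
  · intro f hf h0
    exact h3 _ (hb f hf) fun n => h0 _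
  · exact h4
  · intro a f hf
    have h := h5 a⁻¹ (fun n => f n⁻¹) (hb f hf)
    have e : (fun n : N => f ((a⁻¹ * n)⁻¹)) = fun n => f (n⁻¹ * a) := by
      funext n
      rw [mul_inv_rev, inv_inv]
    simp only [e] at h
    exact h

private theorem bd_add27 {N : Type} {f g : N → ℝ} (hf : Bd27 f) (hg : Bd27 g) : Bd27 (f + g) := by
  obtain ⟨C, hC⟩ := hf
  obtain ⟨D, hD⟩ := hg
  exact ⟨C + D, fun n => (abs_add_le _ _).trans (add_le_add (hC n) (hD n))⟩

private theorem bd_smul27 {N : Type} (c : ℝ) {f : N → ℝ} (hf : Bd27 f) : Bd27 (c • f) := by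
  obtain ⟨C, hC⟩ := hf
  refine ⟨|c| * C, fun n => ?_⟩
  rw [Pi.smul_apply, smul_eq_mul, abs_mul]
  exact mul_le_mul_of_nonneg_left (hC n) (abs_nonneg _)

private theorem bd_const27 {N : Type} (c : ℝ) : Bd27 (fun _ : N => c) := ⟨|c|, fun _ => le_rfl⟩

section Mean

variable {N : Type} [Group N] {m : (N → ℝ) → ℝ}

private theorem m_const27 (hm : RMean27 N m) (c : ℝ) : m (fun _ => c) = c := by
  have h : (fun _ : N => c) = c • (fun _ : N => (1 : ℝ)) := by
    funext n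
    simp
  rw [h, hm.smul c _ (bd_const27 1), hm.one, mul_one]

private theorem m_mono27 (hm : RMean27 N m) {f g : N → ℝ} (hf : Bd27 f) (hg : Bd27 g) (h : ∀ n, f n ≤ g n) :
    m f ≤ m g := by
  have h1 := hm.pos (g + (-1 : ℝ) • f) (bd_add27 hg (bd_smul27 _ hf)) (fun n => by
    rw [Pi.add_apply, Pi.smul_apply, smul_eq_mul]
    linarith [h n])
  rw [hm.add _ _ hg (bd_smul27 _ hf), hm.smul _ _ hf] at h1
  linarith

private theorem m_sum27 {X : Type} (hm : RMean27 N m) (s : Finset X) (f : X → N → ℝ) (hf : ∀ x, Bd27 (f x)) :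
    Bd27 (∑ x ∈ s, f x) ∧ m (∑ x ∈ s, f x) = ∑ x ∈ s, m (f x) := by
  classical
  induction s using Finset.induction_on with
  | empty =>
    rw [Finset.sum_empty, Finset.sum_empty]
    exact ⟨bd_const27 0, m_const27 hm 0⟩
  | insert a s ha ih =>
    rw [Finset.sum_insert ha, Finset.sum_insert ha]
    exact ⟨bd_add27 (hf a) ih.1, by rw [hm.add _ _ (hf a) ih.1, ih.2]⟩

end Mean

theorem avg {Γ H : Type} [Group Γ] [Group H] (p : Γ →* H) (hN : Amen p.ker) (hF : CE Γ) : EqCE p := by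
  obtain ⟨m, hm⟩ := exists_rmean27 hN
  obtain ⟨E, i1, i2, F, hF1, hF2⟩ := hF
  have hcan : ∀ (n x y : Γ), (n * x)⁻¹ * (n * y) = x⁻¹ * y := fun n x y => by group
  have hb0 : ∀ x y : Γ, ∃ C : ℝ, ∀ n : p.ker, ‖F ((n : Γ) * x) - F ((n : Γ) * y)‖ ≤ C := by
    intro x y
    obtain ⟨C, hC⟩ := hF1 {x⁻¹ * y}
    exact ⟨C, fun n => hC _ _ (by rw [hcan]; exact Finset.mem_singleton_self _)⟩
  set u : Γ → p.ker → E := fun x n => F ((n : Γ) * x) - F ((n : Γ) * 1) with hu
  have hbi : ∀ x y : Γ, Bd27 (fun n : p.ker => (inner ℝ (u x n) (u y n) : ℝ)) := by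
    intro x y
    obtain ⟨C, hC⟩ := hb0 x 1
    obtain ⟨D, hD⟩ := hb0 y 1
    refine ⟨C * D, fun n => ?_⟩
    refine (abs_real_inner_le_norm _ _).trans (mul_le_mul (hC n) (hD n) (norm_nonneg _) ?_)
    exact (norm_nonneg _).trans (hC n)
  have hbd : ∀ x y : Γ, Bd27 (fun n : p.ker => ‖F ((n : Γ) * x) - F ((n : Γ) * y)‖ ^ 2) := by
    intro x y
    obtain ⟨C, hC⟩ := hb0 x y
    refine ⟨C ^ 2, fun n => ?_⟩
    rw [abs_of_nonneg (sq_nonneg _)]
    exact pow_le_pow_left₀ (norm_nonneg _) (hC n) 2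
  obtain ⟨E', j1, j2, g, hg⟩ := moore_real
    (fun x y : Γ => m (fun n : p.ker => (inner ℝ (u x n) (u y n) : ℝ)))
    (fun x y => by
      have : (fun n : p.ker => (inner ℝ (u x n) (u y n) : ℝ)) = fun n => inner ℝ (u y n) (u x n) := by
        funext n
        exact real_inner_comm _ _
      rw [this])
    (fun s c => by
      have h1 : ∑ x ∈ s, ∑ y ∈ s, c x * c y * m (fun n : p.ker => (inner ℝ (u x n) (u y n) : ℝ)) =
          m (∑ x ∈ s, ∑ y ∈ s, (c x * c y) • (fun n : p.ker => (inner ℝ (u x n) (u y n) : ℝ))) := by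
        have hin : ∀ x, Bd27 (∑ y ∈ s, (c x * c y) • (fun n : p.ker => (inner ℝ (u x n) (u y n) : ℝ))) ∧
            m (∑ y ∈ s, (c x * c y) • (fun n : p.ker => (inner ℝ (u x n) (u y n) : ℝ))) =
            ∑ y ∈ s, m ((c x * c y) • (fun n : p.ker => (inner ℝ (u x n) (u y n) : ℝ))) := fun x =>
          m_sum27 hm s (fun y => (c x * c y) • (fun n : p.ker => (inner ℝ (u x n) (u y n) : ℝ)))
            fun y => bd_smul27 _ (hbi x y)
        rw [(m_sum27 hm s _ fun x => (hin x).1).2]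
        refine Finset.sum_congr rfl fun x _ => ?_
        rw [(hin x).2]
        refine Finset.sum_congr rfl fun y _ => ?_
        rw [hm.smul _ _ (hbi x y)]
      have hbs : Bd27 (∑ x ∈ s, ∑ y ∈ s, (c x * c y) • (fun n : p.ker => (inner ℝ (u x n) (u y n) : ℝ))) :=
        (m_sum27 hm s _ fun x => (m_sum27 hm s
          (fun y => (c x * c y) • (fun n : p.ker => (inner ℝ (u x n) (u y n) : ℝ)))
            fun y => bd_smul27 _ (hbi x y)).1).1
      rw [h1]
      refine hm.pos _ hbs fun n => ?_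
      have h2 : (∑ x ∈ s, ∑ y ∈ s, (c x * c y) • (fun n : p.ker => (inner ℝ (u x n) (u y n) : ℝ))) n =
          inner ℝ (∑ x ∈ s, c x • u x n) (∑ y ∈ s, c y • u y n) := by
        rw [sum_inner, Finset.sum_apply]
        refine Finset.sum_congr rfl fun x _ => ?_
        rw [inner_sum, Finset.sum_apply]
        refine Finset.sum_congr rfl fun y _ => ?_
        rw [real_inner_smul_left, real_inner_smul_right, Pi.smul_apply, smul_eq_mul, mul_assoc]
      rw [h2]
      exact real_inner_self_nonneg)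
  have hD : ∀ x y : Γ, ‖g x - g y‖ ^ 2 = m (fun n : p.ker => ‖F ((n : Γ) * x) - F ((n : Γ) * y)‖ ^ 2) := by
    intro x y
    have h1 : (fun n : p.ker => ‖F ((n : Γ) * x) - F ((n : Γ) * y)‖ ^ 2) =
        (fun n : p.ker => (inner ℝ (u x n) (u x n) : ℝ)) +
          ((-2 : ℝ) • (fun n : p.ker => (inner ℝ (u x n) (u y n) : ℝ)) +
            (fun n : p.ker => (inner ℝ (u y n) (u y n) : ℝ))) := by
      funext n
      have h2 : F ((n : Γ) * x) - F ((n : Γ) * y) = u x n - u y n := by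
        rw [hu]
        simp only
        abel
      rw [h2, norm_sub_sq_real, Pi.add_apply, Pi.add_apply, Pi.smul_apply, smul_eq_mul,
        real_inner_self_eq_norm_sq, real_inner_self_eq_norm_sq]
      ring
    rw [h1, hm.add _ _ (hbi x x) (bd_add27 (bd_smul27 _ (hbi x y)) (hbi y y)),
      hm.add _ _ (bd_smul27 _ (hbi x y)) (hbi y y), hm.smul _ _ (hbi x y), norm_sub_sq_real,
      ← real_inner_self_eq_norm_sq, ← real_inner_self_eq_norm_sq, hg, hg, hg]
    ring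
  refine ⟨E', j1, j2, g, ?_, ?_, ?_⟩
  · intro K
    obtain ⟨C, hC⟩ := hF1 K
    refine ⟨|C|, fun x y hxy => ?_⟩
    have h1 : ‖g x - g y‖ ^ 2 ≤ |C| ^ 2 := by
      rw [hD, ← m_const27 hm (|C| ^ 2)]
      refine m_mono27 hm (hbd x y) (bd_const27 _) fun n => ?_
      exact pow_le_pow_left₀ (norm_nonneg _)
        ((hC _ _ (by rw [hcan]; exact hxy)).trans (le_abs_self _)) 2
    exact (sq_le_sq₀ (norm_nonneg _) (abs_nonneg _)).1 h1
  · intro R
    obtain ⟨K, hK⟩ := hF2 (|R| + 1)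
    refine ⟨K, fun x y hxy => ?_⟩
    by_contra hcon
    have h1 : (|R| + 1) ^ 2 ≤ ‖g x - g y‖ ^ 2 := by
      rw [hD, ← m_const27 hm ((|R| + 1) ^ 2)]
      refine m_mono27 hm (bd_const27 _) (hbd x y) fun n => ?_
      have h2 : |R| + 1 ≤ ‖F ((n : Γ) * x) - F ((n : Γ) * y)‖ := by
        by_contra hlt
        push Not at hlt
        have := hK _ _ hlt.le
        rw [hcan] at this
        exact hcon this
      exact pow_le_pow_left₀ (by positivity) h2 2
    have h3 := (sq_le_sq₀ (by positivity) (norm_nonneg _)).1 h1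
    have h4 := le_abs_self R
    linarith
  · intro a x y ha
    have h1 : ‖g (a * x) - g (a * y)‖ ^ 2 = ‖g x - g y‖ ^ 2 := by
      rw [hD, hD]
      have h2 := hm.inv ⟨a, (MonoidHom.mem_ker).2 ha⟩ _ (hbd x y)
      rw [← h2]
      congr 1
      funext n
      rw [Subgroup.coe_mul, mul_assoc, mul_assoc]
    exact (sq_eq_sq₀ (norm_nonneg _) (norm_nonneg _)).1 h1

end Pool.MP_501efe_an.H20
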