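import Pool.Agent.Helper20.CE.Defs

/-!
# CE-C: Fourier coefficients

1. `apply_dl`: `T δ_y` is the right translate of `T δ_1` (`InL` with `f = δ_1`, `f' = δ_y`, `g = y⁻¹`).
2. `inner_dl`: inner products with basis vectors are values (Mathlib: `inner` on `lp` is conjugate linear in the first variable).
3. `coe_inv`: `v s⁻¹ = star (v s)`: `(v s⁻¹ δ_1)(x) = ⟪δ_x, star (v s) δ_1⟫ = ⟪v s δ_x, δ_1⟫ = conj ((v s δ_x)(1)) = conj (coe (v s) x⁻¹)`.
4. `inner_v`: `⟪v s a, v t b⟫ = ⟪v (t⁻¹ * s) a, b⟫`; in particular `v s` preserves inner products.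
5. `hasSum_sq`: `‖v s δ_1‖ = ‖δ_1‖ = 1`.
7. `bessel`: for a finite set `A` of `Γ` and `ε > 0` only finitely many `r` have `∑ x ∈ A, ‖coe (v r) x‖ ^ 2 > ε`.
8. `exists_coset`: some `x` has `coe (v s) x ≠ 0` (by 5), so `p x = q s`.
-/

set_option autoImplicit false

namespace Pool.MP_501efe_an.H20

open scoped ComplexConjugate

variable {Γ Λ H : Type} [Group Γ] [Group Λ] [Group H]

theorem dl_apply (x h : Γ) [Decidable (h = x)] : (dl x : HL Γ) h = if h = x then (1 : ℂ) else 0 := by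
  classical
  unfold dl
  rw [lp.single_apply]
  by_cases e : h = x
  · subst e
    simp
  · simp [e]

theorem inner_dl (x : Γ) (f : HL Γ) : inner ℂ (dl x) f = f x := by
  classical
  unfold dl
  rw [lp.inner_single_left]
  simp

theorem inner_dl' (x : Γ) (f : HL Γ) : inner ℂ f (dl x) = conj (f x) := by
  rw [← inner_conj_symm, inner_dl]

theorem apply_dl {T : HL Γ →L[ℂ] HL Γ} (hT : InL Γ T) (x y : Γ) : (T (dl y)) x = coe T (x * y⁻¹) := by
  classical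
  refine hT y⁻¹ (dl 1) (dl y) (fun h => ?_) x
  rw [dl_apply, dl_apply]
  by_cases e : h = y
  · subst e
    simp
  · have : ¬ (h * y⁻¹ = 1) := fun h' => e (by rwa [mul_inv_eq_one] at h')
    simp [e, this]

theorem coe_inv {p : Γ →* H} {q : Λ →* H} {v : Λ → HL Γ →L[ℂ] HL Γ} (hv : Hyp p q v) (s : Λ) (x : Γ) :
    coe (v s⁻¹) x = conj (coe (v s) x⁻¹) := by
  have h1 : coe (v s⁻¹) x = inner ℂ (dl x) (v s⁻¹ (dl 1)) := by
    rw [inner_dl]; rfl
  rw [h1, ← hv.star_eq, ContinuousLinearMap.star_eq_adjoint, ContinuousLinearMap.adjoint_inner_right,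
    inner_dl', apply_dl (hv.mem s), one_mul]

theorem inner_v {p : Γ →* H} {q : Λ →* H} {v : Λ → HL Γ →L[ℂ] HL Γ} (hv : Hyp p q v) (s t : Λ) (a b : HL Γ) :
    inner ℂ (v s a) (v t b) = inner ℂ (v (t⁻¹ * s) a) b := by
  rw [hv.mul, ← hv.star_eq, ContinuousLinearMap.star_eq_adjoint]
  exact (ContinuousLinearMap.adjoint_inner_left (v t) b (v s a)).symm

theorem norm_v {p : Γ →* H} {q : Λ →* H} {v : Λ → HL Γ →L[ℂ] HL Γ} (hv : Hyp p q v) (s : Λ) (a : HL Γ) : ‖v s a‖ = ‖a‖ := by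
  have h1 : inner ℂ (v s a) (v s a) = (inner ℂ a a : ℂ) := by
    rw [inner_v hv, inv_mul_cancel, hv.one]; rfl
  have h2 : ‖v s a‖ ^ 2 = ‖a‖ ^ 2 := by
    rw [@norm_sq_eq_re_inner ℂ, @norm_sq_eq_re_inner ℂ, h1]
  exact (sq_eq_sq₀ (norm_nonneg _) (norm_nonneg _)).mp h2

theorem norm_dl (x : Γ) : ‖(dl x : HL Γ)‖ = 1 := by
  classical
  unfold dl
  rw [lp.norm_single (by norm_num)]
  simp

theorem hasSum_sq {p : Γ →* H} {q : Λ →* H} {v : Λ → HL Γ →L[ℂ] HL Γ} (hv : Hyp p q v) (s : Λ) :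
    HasSum (fun x => ‖coe (v s) x‖ ^ 2) 1 := by
  have h := lp.hasSum_norm (p := 2) (by norm_num) (v s (dl 1))
  rw [norm_v hv, norm_dl] at h
  simpa [coe] using h

theorem bessel {p : Γ →* H} {q : Λ →* H} {v : Λ → HL Γ →L[ℂ] HL Γ} (hv : Hyp p q v) (A : Finset Γ) {ε : ℝ} (hε : 0 < ε) :
    ∃ B : Finset Λ, ∀ r, r ∉ B → ∑ x ∈ A, ‖coe (v r) x‖ ^ 2 ≤ ε := by
  classical
  have h0 : Filter.Tendsto (fun r : Λ => ∑ x ∈ A, ‖coe (v r) x‖ ^ 2) Filter.cofinite (nhds (∑ x ∈ A, (0 : ℝ))) := by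
    refine tendsto_finsetSum A fun x _ => ?_
    have h := ((hv.mix x).norm).pow 2
    simpa using h
  rw [Finset.sum_const_zero] at h0
  have hE : ∀ᶠ r in Filter.cofinite, ∑ x ∈ A, ‖coe (v r) x‖ ^ 2 < ε := h0.eventually (gt_mem_nhds hε)
  rw [Filter.eventually_cofinite] at hE
  refine ⟨hE.toFinset, fun r hr => ?_⟩
  rw [Set.Finite.mem_toFinset] at hr
  by_contra hc
  exact hr (fun h => hc h.le)

theorem exists_coset {p : Γ →* H} {q : Λ →* H} {v : Λ → HL Γ →L[ℂ] HL Γ} (hv : Hyp p q v) (s : Λ) : ∃ x, p x = q s := by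
  by_contra hc
  push Not at hc
  have h := hasSum_sq hv s
  have h0 : (fun x => ‖coe (v s) x‖ ^ 2) = fun _ => (0 : ℝ) := by
    funext x
    rw [hv.gr s x (hc x)]
    simp
  rw [h0] at h
  exact one_ne_zero (h.unique hasSum_zero)

end Pool.MP_501efe_an.H20
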