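import Mathlib

/-!
# Project CE (MP_501efe_an): coarse embeddability and graded isomorphisms of group von Neumann algebras

Definitions.  `HL Γ` is `ℓ²(Γ)`, `dl x` is the basis vector at `x`, `InL Γ T` says that the bounded operator `T` is in `L(Γ)` (the commutant of the
right translations, in the form used by the frozen statement `S04645`), `coe T x` is the Fourier coefficient `(T δ_1)(x)`.
-/

set_option autoImplicit false

namespace Pool.MP_501efe_an.H20

open scoped ComplexConjugate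

/-- The Hilbert space `ℓ²(Γ)`. -/
abbrev HL (Γ : Type) : Type := lp (fun _ : Γ => ℂ) 2

/-- The basis vector `δ_x` of `ℓ²(Γ)`. -/
noncomputable def dl {Γ : Type} (x : Γ) : HL Γ := by
  classical exact lp.single 2 x (1 : ℂ)

/-- `T` is in the group von Neumann algebra `L(Γ)`: it commutes with all right translations. -/
def InL (Γ : Type) [Group Γ] (T : HL Γ →L[ℂ] HL Γ) : Prop :=
  ∀ (g : Γ) (f f' : HL Γ), (∀ h : Γ, f' h = f (h * g)) → ∀ h : Γ, (T f') h = (T f) (h * g)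

/-- The Fourier coefficient of `T` at `x`: the value of `T δ_1` at `x`. For `x = 1` it is the trace of `T`. -/
noncomputable def coe {Γ : Type} [Group Γ] (T : HL Γ →L[ℂ] HL Γ) (x : Γ) : ℂ := (T (dl 1)) x

/-- `v` is a homomorphism of `Λ` into the unitary group of `L(Γ)` which tends weakly to zero at infinity, and each `v s` is supported on the
coset of the kernel of `p : Γ → H` which lies over `q s`. -/
structure Hyp {Γ Λ H : Type} [Group Γ] [Group Λ] [Group H] (p : Γ →* H) (q : Λ →* H) (v : Λ → HL Γ →L[ℂ] HL Γ) : Prop where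
  mem : ∀ s, InL Γ (v s)
  one : v 1 = 1
  mul : ∀ s t, v (s * t) = v s * v t
  star_eq : ∀ s, star (v s) = v s⁻¹
  mix : ∀ x, Filter.Tendsto (fun s => coe (v s) x) Filter.cofinite (nhds 0)
  gr : ∀ s x, p x ≠ q s → coe (v s) x = 0

/-- `Γ` has a coarse embedding `F` into a Hilbert space (an inner product space, which may be completed) such that
`‖F (n x) - F (n y)‖ = ‖F x - F y‖` for all `n` in the kernel of `p`. For `p` injective this is coarse embeddability of `Γ`,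
for `p` trivial it is the Haagerup property. -/
def EqCE {Γ H : Type} [Group Γ] [Group H] (p : Γ →* H) : Prop :=
  ∃ (E : Type) (_ : NormedAddCommGroup E) (_ : InnerProductSpace ℝ E) (F : Γ → E),
    (∀ K : Finset Γ, ∃ C : ℝ, ∀ x y : Γ, x⁻¹ * y ∈ K → ‖F x - F y‖ ≤ C) ∧
    (∀ R : ℝ, ∃ K : Finset Γ, ∀ x y : Γ, ‖F x - F y‖ ≤ R → x⁻¹ * y ∈ K) ∧
    ∀ n x y : Γ, p n = 1 → ‖F (n * x) - F (n * y)‖ = ‖F x - F y‖

/-- `Γ` coarsely embeds into a Hilbert space. -/
def CE (Γ : Type) [Group Γ] : Prop :=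
  ∃ (E : Type) (_ : NormedAddCommGroup E) (_ : InnerProductSpace ℝ E) (F : Γ → E),
    (∀ K : Finset Γ, ∃ C : ℝ, ∀ x y : Γ, x⁻¹ * y ∈ K → ‖F x - F y‖ ≤ C) ∧
    (∀ R : ℝ, ∃ K : Finset Γ, ∀ x y : Γ, ‖F x - F y‖ ≤ R → x⁻¹ * y ∈ K)

/-- A group is amenable: there is a left invariant mean on the bounded real functions. -/
def Amen (N : Type) [Group N] : Prop :=
  ∃ m : (N → ℝ) → ℝ,
    (∀ f g : N → ℝ, (∃ C, ∀ n, |f n| ≤ C) → (∃ C, ∀ n, |g n| ≤ C) → m (f + g) = m f + m g) ∧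
    (∀ (c : ℝ) (f : N → ℝ), (∃ C, ∀ n, |f n| ≤ C) → m (c • f) = c * m f) ∧
    (∀ f : N → ℝ, (∃ C, ∀ n, |f n| ≤ C) → (∀ n, 0 ≤ f n) → 0 ≤ m f) ∧
    m (fun _ => 1) = 1 ∧
    ∀ (a : N) (f : N → ℝ), (∃ C, ∀ n, |f n| ≤ C) → m (fun n => f (a * n)) = m f

end Pool.MP_501efe_an.H20
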