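import Mathlib

/-!
# CE-A: Gaussian kernels are positive definite (Schoenberg)

For a map `F : X → E` into a real inner product space and `τ ≥ 0` the kernel `exp (- τ ‖F x - F y‖²)` is positive definite.

Proof. `exp (-τ‖Fx - Fy‖²) = e(x) e(y) exp (2 τ ⟪F x, F y⟫)` with `e(x) = exp (-τ‖F x‖²)`. The matrix `⟪F x, F y⟫` (complex valued) is positive
semidefinite: the quadratic form at a finitely supported `c : X →₀ ℂ` is `‖∑ Re c_x F x‖² + ‖∑ Im c_x F x‖²` (or use `Matrix.posSemidef_gram ℝ`, resp. the
quadratic form directly). So are its entrywise powers (`Matrix.PosSemidef.hadamard`, in `Mathlib.Analysis.Matrix.Order`, valid for infinite index types; the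
power 0 is the all one matrix), the partial sums of the exponential series with nonnegative coefficients, and the pointwise limit (the quadratic form of
`Matrix.PosSemidef` is a finite sum, `Finsupp.sum`, so it is continuous in the entries). Finally multiply by `e(x) e(y)` (hadamard with the rank one matrix
`e(x) e(y)`, or replace `c_x` by `e(x) c_x`). It may be convenient to prove first a lemma: `K` positive semidefinite iff Hermitian and
`0 ≤ re ∑ x ∈ s, ∑ y ∈ s, conj (c x) * K x y * c y` for all finite `s` and all `c : X → ℂ`.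
-/

set_option autoImplicit false

namespace Pool.MP_501efe_an.H20

open scoped ComplexConjugate ComplexOrder

private lemma form38 {X E : Type} [NormedAddCommGroup E] [InnerProductSpace ℝ E] (F : X → E)
    (s : Finset X) (c : X → ℂ) :
    ∑ i ∈ s, ∑ j ∈ s, star (c i) * ((inner ℝ (F i) (F j) : ℝ) : ℂ) * c j =
      ((‖∑ i ∈ s, (c i).re • F i‖ ^ 2 + ‖∑ i ∈ s, (c i).im • F i‖ ^ 2 : ℝ) : ℂ) := by
  have hn : ∀ a : X → ℝ, ‖∑ i ∈ s, a i • F i‖ ^ 2 = ∑ i ∈ s, ∑ j ∈ s, a i * a j * inner ℝ (F i) (F j) := by
    intro a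
    rw [← real_inner_self_eq_norm_sq, sum_inner]
    refine Finset.sum_congr rfl fun i _ => ?_
    rw [inner_sum]
    refine Finset.sum_congr rfl fun j _ => ?_
    rw [real_inner_smul_left, real_inner_smul_right]
    ring
  rw [hn, hn]
  refine Complex.ext ?_ ?_
  · rw [Complex.ofReal_re, Complex.re_sum, ← Finset.sum_add_distrib]
    refine Finset.sum_congr rfl fun i _ => ?_
    rw [Complex.re_sum, ← Finset.sum_add_distrib]
    refine Finset.sum_congr rfl fun j _ => ?_
    simp only [Complex.mul_re, Complex.mul_im, Complex.ofReal_re, Complex.ofReal_im,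
      Complex.star_def, Complex.conj_re, Complex.conj_im]
    ring
  · rw [Complex.ofReal_im, Complex.im_sum]
    have h1 : ∀ i ∈ s, (∑ j ∈ s, star (c i) * ((inner ℝ (F i) (F j) : ℝ) : ℂ) * c j).im =
        ∑ j ∈ s, ((c i).re * (c j).im * inner ℝ (F i) (F j) -
          (c j).re * (c i).im * inner ℝ (F i) (F j)) := by
      intro i _
      rw [Complex.im_sum]
      refine Finset.sum_congr rfl fun j _ => ?_
      simp only [Complex.mul_re, Complex.mul_im, Complex.ofReal_re, Complex.ofReal_im,
        Complex.star_def, Complex.conj_re, Complex.conj_im]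
      ring
    rw [Finset.sum_congr rfl h1]
    simp only [Finset.sum_sub_distrib]
    rw [sub_eq_zero]
    conv_rhs => rw [Finset.sum_comm]
    refine Finset.sum_congr rfl fun i _ => Finset.sum_congr rfl fun j _ => ?_
    rw [real_inner_comm]

private lemma gram38 {X E : Type} [NormedAddCommGroup E] [InnerProductSpace ℝ E] (F : X → E) :
    (Matrix.of fun x y : X => ((inner ℝ (F x) (F y) : ℝ) : ℂ)).PosSemidef := by
  refine ⟨?_, fun c => ?_⟩
  · ext x y
    rw [Matrix.conjTranspose_apply, Matrix.of_apply, Matrix.of_apply, Complex.star_def,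
      Complex.conj_ofReal, real_inner_comm]
  · have h1 := form38 F c.support c
    rw [Finsupp.sum]
    simp only [Finsupp.sum, Matrix.of_apply]
    rw [h1]
    have h2 : (0 : ℝ) ≤ ‖∑ i ∈ c.support, (c i).re • F i‖ ^ 2 + ‖∑ i ∈ c.support, (c i).im • F i‖ ^ 2 := by
      positivity
    exact_mod_cast h2

private lemma limit38 {X : Type} (M : ℕ → Matrix X X ℂ) (L : Matrix X X ℂ)
    (hM : ∀ n, (M n).PosSemidef)
    (hl : ∀ x y, Filter.Tendsto (fun n => M n x y) Filter.atTop (nhds (L x y))) : L.PosSemidef := by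
  refine ⟨?_, fun c => ?_⟩
  · ext x y
    rw [Matrix.conjTranspose_apply]
    have h1 : Filter.Tendsto (fun n => star (M n y x)) Filter.atTop (nhds (star (L y x))) :=
      (hl y x).star
    have h2 : (fun n => star (M n y x)) = fun n => M n x y := by
      funext n
      exact (hM n).1.apply x y
    rw [h2] at h1
    exact tendsto_nhds_unique h1 (hl x y)
  · have h1 : Filter.Tendsto (fun n => c.sum fun i xi => c.sum fun j xj => star xi * M n i j * xj)
        Filter.atTop (nhds (c.sum fun i xi => c.sum fun j xj => star xi * L i j * xj)) := by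
      simp only [Finsupp.sum]
      refine tendsto_finsetSum _ fun i _ => tendsto_finsetSum _ fun j _ => ?_
      exact ((hl i j).const_mul _).mul_const _
    exact ge_of_tendsto' h1 fun n => (hM n).2 c

private lemma pow38 {X E : Type} [NormedAddCommGroup E] [InnerProductSpace ℝ E] (F : X → E) (n : ℕ) :
    (Matrix.of fun x y : X => ((inner ℝ (F x) (F y) : ℝ) : ℂ) ^ n).PosSemidef := by
  induction n with
  | zero =>
    have h1 := gram38 (X := X) (E := ℝ) (fun _ => 1)
    convert h1 using 1
    ext x y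
    simp
  | succ n ih =>
    have h2 : (Matrix.of fun x y : X => ((inner ℝ (F x) (F y) : ℝ) : ℂ) ^ (n + 1)) =
        Matrix.hadamard (Matrix.of fun x y : X => ((inner ℝ (F x) (F y) : ℝ) : ℂ) ^ n)
          (Matrix.of fun x y : X => ((inner ℝ (F x) (F y) : ℝ) : ℂ)) := by
      ext x y
      rw [Matrix.hadamard_apply, Matrix.of_apply, Matrix.of_apply, Matrix.of_apply, pow_succ]
    rw [h2]
    exact ih.hadamard (gram38 F)

theorem gauss {X E : Type} [NormedAddCommGroup E] [InnerProductSpace ℝ E] (F : X → E) (τ : ℝ) (hτ : 0 ≤ τ) :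
    (Matrix.of fun x y : X => ((Real.exp (-τ * ‖F x - F y‖ ^ 2) : ℝ) : ℂ)).PosSemidef := by
  have h1 : (Matrix.of fun x y : X => ((Real.exp (2 * τ * inner ℝ (F x) (F y)) : ℝ) : ℂ)).PosSemidef := by
    refine limit38 (fun N => ∑ n ∈ Finset.range N, (((2 * τ) ^ n / n.factorial : ℝ) : ℂ) •
      (Matrix.of fun x y : X => ((inner ℝ (F x) (F y) : ℝ) : ℂ) ^ n)) _ (fun N => ?_) fun x y => ?_
    · refine Matrix.posSemidef_sum _ fun n _ => (pow38 F n).smul ?_
      have h2 : (0 : ℝ) ≤ (2 * τ) ^ n / n.factorial := by positivity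
      exact_mod_cast h2
    · have h2 := (NormedSpace.expSeries_div_hasSum_exp (2 * τ * inner ℝ (F x) (F y))).tendsto_sum_nat
      rw [← Real.exp_eq_exp_ℝ] at h2
      have h3 := (Complex.continuous_ofReal.tendsto _).comp h2
      rw [Matrix.of_apply]
      refine h3.congr fun N => ?_
      rw [Function.comp_apply, Matrix.sum_apply, Complex.ofReal_sum]
      refine Finset.sum_congr rfl fun n _ => ?_
      rw [Matrix.smul_apply, Matrix.of_apply, smul_eq_mul]
      push_cast
      ring
  have h2 := gram38 (X := X) (E := ℝ) (fun x => Real.exp (-τ * ‖F x‖ ^ 2))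
  suffices h4 : (Matrix.of fun x y : X => ((Real.exp (-τ * ‖F x - F y‖ ^ 2) : ℝ) : ℂ)) =
      Matrix.hadamard (Matrix.of fun x y : X => ((Real.exp (2 * τ * inner ℝ (F x) (F y)) : ℝ) : ℂ))
        (Matrix.of fun x y : X =>
          ((inner ℝ (Real.exp (-τ * ‖F x‖ ^ 2)) (Real.exp (-τ * ‖F y‖ ^ 2)) : ℝ) : ℂ)) by
    rw [h4]
    exact h1.hadamard h2
  ext x y
  rw [Matrix.hadamard_apply, Matrix.of_apply, Matrix.of_apply, Matrix.of_apply, ← Complex.ofReal_mul]
  congr 1
  rw [real_inner_eq_re_inner, RCLike.inner_apply]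
  simp only [conj_trivial, RCLike.re_to_real]
  rw [← Real.exp_add, ← Real.exp_add]
  congr 1
  rw [norm_sub_sq_real]
  ring

end Pool.MP_501efe_an.H20
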