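import Pool.Agent.Helper20.CE.Transfer
import Pool.Agent.Helper20.CE.Gauss

/-!
# CE-E: the transferred kernel is controlled

Let `F : Γ → E` be as in `EqCE p`. Given a finite `K ⊆ Λ` and `ε > 0` choose a finite `A ⊆ Γ` with `∑_{z ∉ A} |c r z|² ≤ ε²/8` for the finitely many `r` with `r ∈ K` or `r⁻¹ ∈ K`
(`hasSum_sq`), let `C` bound `‖F x - F (x z⁻¹)‖` for `z ∈ A` (`x⁻¹ (x z⁻¹) = z⁻¹`), and `τ > 0` with `τ C² ≤ ε²/8`. Put `k x y = exp (-τ ‖F x - F y‖²)` (`gauss`) and take `ζ` from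
`transfer`. For `r = t⁻¹ s`, `p x = q s` (`exists_coset`):
 `‖ζ s - ζ t‖² = 2 - 2 Re ⟪ζ s, ζ t⟫ = 2 ∑' z |c r z|² (1 - k x (x z⁻¹))`, as `⟪ζ s, ζ s⟫ = ∑' z |c 1 z|² k x (x z⁻¹) = 1` (`c 1 = δ_1`).
* `s⁻¹ t ∈ K`: the sum is `≤ 2 (τ C² + ε²/8) ≤ ε²`  (`1 - exp (-u) ≤ u`).
* `c_0`: take `R > 0` with `exp (-τ R²) ≤ 1/4`, a finite `K'` with `‖F x - F y‖ ≤ R → x⁻¹ y ∈ K'`, `A' = K'⁻¹`, and by `bessel` a finite `B` with
  `∑_{z ∈ A'} |c r z|² ≤ 1/4` for `r ∉ B`. Then for `t⁻¹ s ∉ B` the sum is `≥ 2 (3/4) (3/4) ≥ 1`. So `‖ζ s - ζ t‖ ≥ 1` unless `s⁻¹ t ∈ B⁻¹`.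
* invariance: `q m = 1`: `⟪ζ (m s), ζ (m t)⟫ = ⟪ζ s, ζ t⟫`, as `(m t)⁻¹ (m s) = t⁻¹ s` and the same `x` may be used (`q (m s) = q s`).
-/

set_option autoImplicit false

namespace Pool.MP_501efe_an.H20

variable {Γ Λ H : Type} [Group Γ] [Group Λ] [Group H]

theorem est {p : Γ →* H} {q : Λ →* H} {v : Λ → HL Γ →L[ℂ] HL Γ} (hv : Hyp p q v) (hF : EqCE p) (K : Finset Λ) (ε : ℝ) (hε : 0 < ε) :
    ∃ (E : Type) (_ : NormedAddCommGroup E) (_ : InnerProductSpace ℝ E) (ζ : Λ → E),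
      (∀ s t : Λ, s⁻¹ * t ∈ K → ‖ζ s - ζ t‖ ≤ ε) ∧
      (∃ B : Finset Λ, ∀ s t : Λ, s⁻¹ * t ∉ B → 1 ≤ ‖ζ s - ζ t‖) ∧
      (∀ s t : Λ, ‖ζ s - ζ t‖ ≤ 2) ∧
      ∀ m s t : Λ, q m = 1 → ‖ζ (m * s) - ζ (m * t)‖ = ‖ζ s - ζ t‖ := by
  classical
  obtain ⟨E, _, _, F, hF1, hF2, hF3⟩ := hF
  -- the finite set `A`
  obtain ⟨A, hA⟩ : ∃ A : Finset Γ, ∀ r ∈ K, 1 - ε ^ 2 / 8 < ∑ z ∈ A, ‖coe (v r⁻¹) z‖ ^ 2 := by
    have h1 : ∀ᶠ A : Finset Γ in Filter.atTop, ∀ r ∈ K, 1 - ε ^ 2 / 8 < ∑ z ∈ A, ‖coe (v r⁻¹) z‖ ^ 2 := by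
      rw [Filter.eventually_all_finset]
      intro r _
      have h2 : Filter.Tendsto (fun A : Finset Γ => ∑ z ∈ A, ‖coe (v r⁻¹) z‖ ^ 2) Filter.atTop (nhds 1) :=
        hasSum_sq hv r⁻¹
      exact (tendsto_order.1 h2).1 _ (by nlinarith [sq_nonneg ε, pow_pos hε 2])
    exact h1.exists
  obtain ⟨C, hC⟩ := hF1 (A.image fun z => z⁻¹)
  obtain ⟨τ, hτd⟩ : ∃ τ : ℝ, τ = ε ^ 2 / (8 * (C ^ 2 + 1)) := ⟨_, rfl⟩
  have hC1 : 0 < C ^ 2 + 1 := by positivity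
  have hτ : 0 < τ := by
    rw [hτd]
    positivity
  have hτC : τ * C ^ 2 ≤ ε ^ 2 / 8 := by
    have h1 : τ * (C ^ 2 + 1) = ε ^ 2 / 8 := by
      rw [hτd]
      field_simp
    nlinarith
  let k : Γ → Γ → ℝ := fun x y => Real.exp (-τ * ‖F x - F y‖ ^ 2)
  have hk : ∀ x y, k x y = Real.exp (-τ * ‖F x - F y‖ ^ 2) := fun x y => rfl
  have hone : ∀ x, k x x = 1 := by
    intro x
    rw [hk, sub_self, norm_zero]
    simp
  have hk0 : ∀ x y, 0 ≤ k x y := fun x y => (Real.exp_pos _).le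
  have hk1 : ∀ x y, k x y ≤ 1 := by
    intro x y
    rw [hk, Real.exp_le_one_iff]
    nlinarith [sq_nonneg (‖F x - F y‖), mul_nonneg hτ.le (sq_nonneg (‖F x - F y‖))]
  have hinv : ∀ n x y, p n = 1 → k (n * x) (n * y) = k x y := by
    intro n x y hn
    rw [hk, hk, hF3 n x y hn]
  obtain ⟨E', _, _, ζ, hζ⟩ := transfer hv k (gauss F τ hτ.le) hone hinv
  -- the sums
  have hsumm : ∀ (r : Λ) (x : Γ), Summable fun z => ‖coe (v r) z‖ ^ 2 * k x (x * z⁻¹) := by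
    intro r x
    refine Summable.of_nonneg_of_le (fun z => mul_nonneg (sq_nonneg _) (hk0 _ _)) (fun z => ?_) (hasSum_sq hv r).summable
    have := mul_le_mul_of_nonneg_left (hk1 x (x * z⁻¹)) (sq_nonneg ‖coe (v r) z‖)
    rwa [mul_one] at this
  have hnorm : ∀ s, ‖ζ s‖ = 1 := by
    intro s
    obtain ⟨x, hx⟩ := exists_coset hv s
    have h1 := hζ s s x hx
    have h2 : ∑' z, ‖coe (v (s⁻¹ * s)) z‖ ^ 2 * k x (x * z⁻¹) = 1 := by
      rw [inv_mul_cancel, hv.one]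
      rw [tsum_eq_single (1 : Γ)]
      · have h3 : coe (1 : HL Γ →L[ℂ] HL Γ) 1 = 1 := by
          unfold coe dl
          simp
        rw [h3, inv_one, mul_one, hone]
        simp
      · intro z hz
        have h3 : coe (1 : HL Γ →L[ℂ] HL Γ) z = 0 := by
          unfold coe dl
          simp [lp.single_apply, hz]
        rw [h3]
        simp
    have h4 : ‖ζ s‖ ^ 2 = 1 := by
      rw [← inner_self_eq_norm_sq (𝕜 := ℂ), h1, h2]
      simp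
    have h5 := norm_nonneg (ζ s)
    nlinarith
  have hdist : ∀ (s t : Λ) (x : Γ), p x = q s →
      ‖ζ s - ζ t‖ ^ 2 = 2 - 2 * ∑' z, ‖coe (v (t⁻¹ * s)) z‖ ^ 2 * k x (x * z⁻¹) := by
    intro s t x hx
    rw [@norm_sub_sq ℂ, hζ s t x hx, hnorm, hnorm]
    simp only [RCLike.re_eq_complex_re, Complex.ofReal_re]
    ring
  refine ⟨E', inferInstance, InnerProductSpace.complexToReal, ζ, ?_, ?_, ?_, ?_⟩
  · intro s t hst
    obtain ⟨x, hx⟩ := exists_coset hv s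
    have hr : t⁻¹ * s = (s⁻¹ * t)⁻¹ := by group
    have h1 := hdist s t x hx
    rw [hr] at h1
    have h2 := hA _ hst
    obtain ⟨a, ha⟩ : ∃ a : Γ → ℝ, a = fun z => ‖coe (v (s⁻¹ * t)⁻¹) z‖ ^ 2 := ⟨_, rfl⟩
    have ha' : ∀ z, ‖coe (v (s⁻¹ * t)⁻¹) z‖ ^ 2 = a z := fun z => by rw [ha]
    have ha0 : ∀ z, 0 ≤ a z := fun z => by rw [← ha']; positivity
    have hs := hsumm (s⁻¹ * t)⁻¹ x
    have hs1 := hasSum_sq hv (s⁻¹ * t)⁻¹
    simp only [ha'] at h1 h2 hs hs1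
    have h3 : ∑ z ∈ A, a z * (1 - ε ^ 2 / 8) ≤ ∑ z ∈ A, a z * k x (x * z⁻¹) := by
      refine Finset.sum_le_sum fun z hz => mul_le_mul_of_nonneg_left ?_ (ha0 z)
      have h4 : ‖F x - F (x * z⁻¹)‖ ≤ C := hC x (x * z⁻¹) (by
        rw [inv_mul_cancel_left]
        exact Finset.mem_image_of_mem _ hz)
      have h5 : ‖F x - F (x * z⁻¹)‖ ^ 2 ≤ C ^ 2 := by
        have := norm_nonneg (F x - F (x * z⁻¹))
        nlinarith
      have h6 := Real.add_one_le_exp (-τ * ‖F x - F (x * z⁻¹)‖ ^ 2)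
      rw [hk]
      nlinarith [mul_le_mul_of_nonneg_left h5 hτ.le]
    have h4 : ∑ z ∈ A, a z * k x (x * z⁻¹) ≤ ∑' z, a z * k x (x * z⁻¹) :=
      hs.sum_le_tsum A fun z _ => mul_nonneg (ha0 z) (hk0 _ _)
    have h5 : ∑ z ∈ A, a z ≤ 1 := by
      rw [← hs1.tsum_eq]
      exact hs1.summable.sum_le_tsum A fun z _ => ha0 z
    rw [← Finset.sum_mul] at h3
    have h6 : ‖ζ s - ζ t‖ ^ 2 ≤ ε ^ 2 := by
      rw [h1]
      nlinarith [mul_le_mul_of_nonneg_right h5 (show (0 : ℝ) ≤ ε ^ 2 / 8 by positivity)]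
    exact (pow_le_pow_iff_left₀ (norm_nonneg _) hε.le two_ne_zero).1 h6
  · obtain ⟨R, hRd⟩ : ∃ R : ℝ, R = 1 + 2 / τ := ⟨_, rfl⟩
    have hRτ : 4 ≤ τ * R ^ 2 := by
      rw [hRd]
      have h1 : τ * (1 + 2 / τ) ^ 2 = τ + 4 + 4 / τ := by
        field_simp
        ring
      rw [h1]
      have : 0 < 4 / τ := by positivity
      linarith
    have hR0 : 0 ≤ R := by
      rw [hRd]
      positivity
    obtain ⟨K', hK'⟩ := hF2 R
    obtain ⟨B, hB⟩ := bessel hv (K'.image fun z => z⁻¹) (show (0 : ℝ) < 1 / 4 by norm_num)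
    refine ⟨B.image fun r => r⁻¹, fun s t hst => ?_⟩
    have hr : t⁻¹ * s ∉ B := by
      intro h1
      apply hst
      rw [Finset.mem_image]
      exact ⟨t⁻¹ * s, h1, by group⟩
    have h0 := hB _ hr
    obtain ⟨x, hx⟩ := exists_coset hv s
    have h1 := hdist s t x hx
    obtain ⟨a, ha⟩ : ∃ a : Γ → ℝ, a = fun z => ‖coe (v (t⁻¹ * s)) z‖ ^ 2 := ⟨_, rfl⟩
    have ha' : ∀ z, ‖coe (v (t⁻¹ * s)) z‖ ^ 2 = a z := fun z => by rw [ha]
    have ha0 : ∀ z, 0 ≤ a z := fun z => by rw [← ha']; positivity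
    have hs := hsumm (t⁻¹ * s) x
    have hs1 := hasSum_sq hv (t⁻¹ * s)
    simp only [ha'] at h0 h1 hs hs1
    have h2 : HasSum (fun z => 1 / 4 * a z + (if z ∈ K'.image (fun z => z⁻¹) then 3 / 4 * a z else 0))
        (1 / 4 * 1 + ∑ z ∈ K'.image (fun z => z⁻¹), 3 / 4 * a z) := by
      refine (hs1.mul_left (1 / 4)).add ?_
      have h3 : HasSum (fun z => if z ∈ K'.image (fun z => z⁻¹) then 3 / 4 * a z else 0)
          (∑ z ∈ K'.image (fun z => z⁻¹), (if z ∈ K'.image (fun z => z⁻¹) then 3 / 4 * a z else 0)) :=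
        hasSum_sum_of_ne_finset_zero (fun z hz => if_neg hz)
      have h4 : ∑ z ∈ K'.image (fun z => z⁻¹), (if z ∈ K'.image (fun z => z⁻¹) then 3 / 4 * a z else 0) =
          ∑ z ∈ K'.image (fun z => z⁻¹), 3 / 4 * a z := Finset.sum_congr rfl fun z hz => if_pos hz
      rw [h4] at h3
      exact h3
    have h3 : ∑' z, a z * k x (x * z⁻¹) ≤ 1 / 4 * 1 + ∑ z ∈ K'.image (fun z => z⁻¹), 3 / 4 * a z := by
      rw [← h2.tsum_eq]
      refine hs.tsum_le_tsum (fun z => ?_) h2.summable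
      by_cases hz : z ∈ K'.image (fun z => z⁻¹)
      · rw [if_pos hz]
        nlinarith [mul_le_mul_of_nonneg_left (hk1 x (x * z⁻¹)) (ha0 z)]
      · rw [if_neg hz, add_zero]
        have h4 : R < ‖F x - F (x * z⁻¹)‖ := by
          by_contra hle
          push Not at hle
          have h5 := hK' x (x * z⁻¹) hle
          rw [inv_mul_cancel_left] at h5
          exact hz (Finset.mem_image.2 ⟨z⁻¹, h5, inv_inv z⟩)
        have h5 : R ^ 2 ≤ ‖F x - F (x * z⁻¹)‖ ^ 2 := by nlinarith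
        have h6 : k x (x * z⁻¹) ≤ 1 / 4 := by
          rw [hk]
          have h7 : Real.exp (-τ * ‖F x - F (x * z⁻¹)‖ ^ 2) ≤ Real.exp (-4) := by
            rw [Real.exp_le_exp]
            nlinarith [mul_le_mul_of_nonneg_left h5 hτ.le]
          have h8 := Real.add_one_le_exp (4 : ℝ)
          have h9 : Real.exp (-4) ≤ 1 / 4 := by
            rw [Real.exp_neg, one_div]
            exact inv_anti₀ (by norm_num) (by linarith)
          exact h7.trans h9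
        nlinarith [mul_le_mul_of_nonneg_left h6 (ha0 z)]
    rw [← Finset.mul_sum] at h3
    have h4 : 1 ≤ ‖ζ s - ζ t‖ ^ 2 := by
      rw [h1]
      nlinarith
    have h5 := norm_nonneg (ζ s - ζ t)
    nlinarith
  · intro s t
    have h1 := norm_sub_le (ζ s) (ζ t)
    rw [hnorm, hnorm] at h1
    linarith
  · intro m s t hm
    obtain ⟨x, hx⟩ := exists_coset hv s
    have hx' : p x = q (m * s) := by rw [map_mul, hm, one_mul, hx]
    have h1 := hdist s t x hx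
    have h2 := hdist (m * s) (m * t) x hx'
    have hr : (m * t)⁻¹ * (m * s) = t⁻¹ * s := by group
    rw [hr, ← h1] at h2
    have h3 := norm_nonneg (ζ (m * s) - ζ (m * t))
    have h4 := norm_nonneg (ζ s - ζ t)
    exact (pow_left_inj₀ h3 h4 two_ne_zero).1 h2

end Pool.MP_501efe_an.H20
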