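import Pool.Agent.Helper20.CE.Coef

/-!
# CE-H: `*`-isomorphisms in the form of the frozen statement; closure properties of `L(Γ)`; left translations
-/

set_option autoImplicit false

namespace Pool.MP_501efe_an.H20

variable {Γ Λ : Type} [Group Γ] [Group Λ]

/-- `Φ` restricts to a `*`-isomorphism of the group von Neumann algebra of `Γ` onto the one of `Λ`. -/
def IsIso (Φ : (HL Γ →L[ℂ] HL Γ) → (HL Λ →L[ℂ] HL Λ)) : Prop :=
  Set.BijOn Φ {T | InL Γ T} {T | InL Λ T} ∧
  ∀ S ∈ {T : HL Γ →L[ℂ] HL Γ | InL Γ T}, ∀ T ∈ {T : HL Γ →L[ℂ] HL Γ | InL Γ T},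
    Φ (S + T) = Φ S + Φ T ∧ Φ (S * T) = Φ S * Φ T ∧ Φ (star S) = star (Φ S) ∧ ∀ c : ℂ, Φ (c • S) = c • Φ S

section Aux77

theorem inL_one77 (G : Type) [Group G] : InL G (1 : HL G →L[ℂ] HL G) := by
  intro g f f' h x
  exact h x

theorem inL_mul77 {G : Type} [Group G] {S T : HL G →L[ℂ] HL G} (hS : InL G S) (hT : InL G T) :
    InL G (S * T) := by
  intro g f f' h x
  exact hS g (T f) (T f') (hT g f f' h) x

theorem inL_add77 {G : Type} [Group G] {S T : HL G →L[ℂ] HL G} (hS : InL G S) (hT : InL G T) :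
    InL G (S + T) := by
  intro g f f' h x
  rw [ContinuousLinearMap.add_apply, ContinuousLinearMap.add_apply, lp.coeFn_add, lp.coeFn_add, Pi.add_apply,
    Pi.add_apply, hS g f f' h x, hT g f f' h x]

theorem inL_smul77 {G : Type} [Group G] (c : ℂ) {S : HL G →L[ℂ] HL G} (hS : InL G S) : InL G (c • S) := by
  intro g f f' h x
  rw [ContinuousLinearMap.smul_apply, ContinuousLinearMap.smul_apply, lp.coeFn_smul, lp.coeFn_smul, Pi.smul_apply,
    Pi.smul_apply, hS g f f' h x]

theorem dl_apply77 {G : Type} (x y : G) [Decidable (y = x)] : (dl x : HL G) y = if y = x then 1 else 0 := by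
  classical
  unfold dl
  rw [lp.single_apply, Pi.single_apply]
  split_ifs <;> rfl

theorem inL_star77 {G : Type} [Group G] {T : HL G →L[ℂ] HL G} (hT : InL G T) : InL G (star T) := by
  classical
  intro g f f' h x
  have key : ∀ (y : G) (k : HL G), (star T k) y = ∑' z, inner ℂ ((T (dl y)) z) (k z) := by
    intro y k
    rw [← inner_dl y (star T k), ContinuousLinearMap.star_eq_adjoint, ContinuousLinearMap.adjoint_inner_right,
      lp.inner_eq_tsum]
  rw [key, key]
  rw [← Equiv.tsum_eq (Equiv.mulRight g) (fun z => inner ℂ ((T (dl (x * g))) z) (f z))]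
  refine tsum_congr fun z => ?_
  have h1 : (T (dl x)) z = (T (dl (x * g))) (z * g) := by
    refine hT g (dl (x * g)) (dl x) (fun y => ?_) z
    rw [dl_apply77, dl_apply77]
    by_cases hy : y = x
    · rw [if_pos hy, if_pos (by rw [hy])]
    · rw [if_neg hy, if_neg (fun hh => hy (mul_right_cancel hh))]
  rw [Equiv.coe_mulRight, h z, h1]

theorem memlp_shift77 {G : Type} [Group G] (g : G) {F : G → ℂ} (hF : Memℓp F 2) :
    Memℓp (fun x => F (g⁻¹ * x)) 2 := by
  have h1 : Summable fun x => ‖F x‖ ^ (2 : ℝ) := by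
    simpa using hF.summable (by norm_num)
  apply memℓp_gen
  have h2 := (Equiv.summable_iff (Equiv.mulLeft g⁻¹)).2 h1
  simpa [Function.comp_def] using h2

noncomputable def lamf77 {G : Type} [Group G] (g : G) (f : HL G) : HL G :=
  ⟨fun x => f (g⁻¹ * x), memlp_shift77 g (lp.memℓp f)⟩

theorem lamf_apply77 {G : Type} [Group G] (g : G) (f : HL G) (x : G) : lamf77 g f x = f (g⁻¹ * x) := rfl

theorem lamf_norm77 {G : Type} [Group G] (g : G) (f : HL G) : ‖lamf77 g f‖ = ‖f‖ := by
  have e : ∀ f : HL G, ‖f‖ ^ (2 : ℝ) = ∑' x, ‖f x‖ ^ (2 : ℝ) := by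
    intro f
    have := lp.norm_rpow_eq_tsum (p := 2) (E := fun _ : G => ℂ) (by norm_num) f
    rw [ENNReal.toReal_ofNat] at this
    exact this
  have h : ‖lamf77 g f‖ ^ (2 : ℝ) = ‖f‖ ^ (2 : ℝ) := by
    rw [e, e]
    exact Equiv.tsum_eq (Equiv.mulLeft g⁻¹) (fun x => ‖f x‖ ^ (2 : ℝ))
  exact (Real.rpow_left_inj (norm_nonneg _) (norm_nonneg _) (by norm_num)).1 h

noncomputable def lam77 {G : Type} [Group G] (g : G) : HL G →L[ℂ] HL G :=
  LinearMap.mkContinuous
    { toFun := fun f => lamf77 g f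
      map_add' := fun _ _ => rfl
      map_smul' := fun _ _ => rfl } 1 (by
    intro f
    rw [one_mul]
    exact (lamf_norm77 g f).le)

theorem lam_apply77 {G : Type} [Group G] (g : G) (f : HL G) (x : G) : (lam77 g f) x = f (g⁻¹ * x) := rfl

theorem lam_inL77 {G : Type} [Group G] (g : G) : InL G (lam77 g) := by
  intro t f f' h x
  rw [lam_apply77, lam_apply77, h, mul_assoc]

theorem lam_one77 {G : Type} [Group G] : lam77 (1 : G) = 1 := by
  refine ContinuousLinearMap.ext fun f => lp.ext (funext fun x => ?_)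
  rw [lam_apply77, inv_one, one_mul]
  rfl

theorem lam_mul77 {G : Type} [Group G] (s t : G) : lam77 (s * t) = lam77 s * lam77 t := by
  refine ContinuousLinearMap.ext fun f => lp.ext (funext fun x => ?_)
  change (lam77 (s * t) f) x = (lam77 s (lam77 t f)) x
  rw [lam_apply77, lam_apply77, lam_apply77, mul_inv_rev, mul_assoc]

theorem lam_star77 {G : Type} [Group G] (s : G) : star (lam77 s) = lam77 s⁻¹ := by
  rw [ContinuousLinearMap.star_eq_adjoint]
  symm
  rw [ContinuousLinearMap.eq_adjoint_iff]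
  intro x y
  rw [lp.inner_eq_tsum, lp.inner_eq_tsum]
  rw [← Equiv.tsum_eq (Equiv.mulLeft s) (fun z => inner ℂ (x z) ((lam77 s y) z))]
  refine tsum_congr fun z => ?_
  rw [Equiv.coe_mulLeft, lam_apply77, lam_apply77, inv_inv, inv_mul_cancel_left]

open Classical in
theorem lam_coe77 {G : Type} [Group G] (s x : G) : coe (lam77 s) x = if x = s then 1 else 0 := by
  unfold coe
  rw [lam_apply77, dl_apply77]
  by_cases h : x = s
  · rw [if_pos h, if_pos (by rw [h, inv_mul_cancel])]
  · rw [if_neg h, if_neg (fun hh => h ((inv_mul_eq_one.1 hh).symm))]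

end Aux77

end Pool.MP_501efe_an.H20
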