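import Pool.Agent.Helper20.CE.Coef

/-!
# CE-N1: unitaries normalising `L(N)` live on one coset

`N` normal in `Γ` and relatively icc (`{n x n⁻¹ : n ∈ N}` infinite for `x ≠ 1`), `T` a unitary of `L(Γ)` with `T u_n = B n T`, `B n` in `L(Γ)` supported on `N`, for all `n ∈ N`.
Let `ξ` be the restriction of `T δ_1` to a coset. Then `B n ξ` is the right translate of `ξ` by `n`, and `ζ = T* ξ` is constant on the `N`-conjugacy classes, so
`ζ = c δ_1` and `ξ = c T δ_1`.
-/

set_option autoImplicit false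

namespace Pool.MP_501efe_an.H20

open scoped ComplexConjugate

variable {Γ : Type} [Group Γ]

/-- Restriction of a vector of `ℓ²` to a set. -/
noncomputable def cutv (S : Set Γ) (f : HL Γ) : HL Γ := by
  classical
  exact ⟨fun y => if y ∈ S then f y else 0, by
    apply memℓp_gen
    have h1 : Summable (fun z => ‖f z‖ ^ (2 : ENNReal).toReal) := (lp.memℓp f).summable (by norm_num)
    refine Summable.of_nonneg_of_le (fun z => by positivity) (fun z => ?_) h1
    by_cases h : z ∈ S
    · simp [h]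
    · simp [h]⟩

theorem cutv_mem {S : Set Γ} {f : HL Γ} {y : Γ} (h : y ∈ S) : cutv S f y = f y := by
  classical
  show (if y ∈ S then f y else 0) = f y
  simp [h]

theorem cutv_notMem {S : Set Γ} {f : HL Γ} {y : Γ} (h : y ∉ S) : cutv S f y = 0 := by
  classical
  show (if y ∈ S then f y else 0) = 0
  simp [h]

theorem dl_self (x : Γ) : (dl x : HL Γ) x = 1 := by
  simp [dl]

theorem dl_ne {x y : Γ} (h : y ≠ x) : (dl x : HL Γ) y = 0 := by
  simp [dl, h]

theorem coe_star {T : HL Γ →L[ℂ] HL Γ} (hT : InL Γ T) (x : Γ) : coe (star T) x = conj (coe T x⁻¹) := by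
  have h1 : coe (star T) x = inner ℂ (dl x) (star T (dl 1)) := (inner_dl x _).symm
  rw [h1, ContinuousLinearMap.star_eq_adjoint, ContinuousLinearMap.adjoint_inner_right, inner_dl', apply_dl hT, one_mul]

theorem inL_star {T : HL Γ →L[ℂ] HL Γ} (hT : InL Γ T) : InL Γ (star T) := by
  classical
  -- (T* f)(x) = ∑ conj ((T δ_x) y) f y
  intro g f f' hff' x
  have e1 : ∀ (a : HL Γ) (z : Γ), (star T a) z = ∑' y, inner ℂ ((T (dl z)) y) (a y) := by
    intro a z
    rw [← inner_dl z (star T a), ContinuousLinearMap.star_eq_adjoint, ContinuousLinearMap.adjoint_inner_right, lp.inner_eq_tsum]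
  rw [e1, e1]
  rw [← (Equiv.mulRight g).tsum_eq (fun y => inner ℂ ((T (dl (x * g))) y) (f y))]
  refine tsum_congr fun y => ?_
  simp only [Equiv.coe_mulRight]
  rw [hff' y, apply_dl hT, apply_dl hT]
  congr 2
  group

theorem loc {N : Subgroup Γ} [N.Normal] {B : HL Γ →L[ℂ] HL Γ} (hB : InL Γ B) (hs : ∀ x, x ∉ N → coe B x = 0) (a b : HL Γ) (x : Γ)
    (hab : ∀ y, x * y⁻¹ ∈ N → a y = b y) : (B a) x = (B b) x := by
  have e1 : ∀ a : HL Γ, (B a) x = ∑' y, inner ℂ (((star B) (dl x)) y) (a y) := by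
    intro a
    rw [← inner_dl x (B a), ← ContinuousLinearMap.adjoint_inner_left, lp.inner_eq_tsum, ContinuousLinearMap.star_eq_adjoint]
  rw [e1, e1]
  refine tsum_congr fun y => ?_
  by_cases h : x * y⁻¹ ∈ N
  · rw [hab y h]
  · have h1 : ((star B) (dl x)) y = 0 := by
      rw [apply_dl (inL_star hB), coe_star hB]
      have h2 : (y * x⁻¹)⁻¹ = x * y⁻¹ := by group
      rw [h2, hs _ h, map_zero]
    rw [h1]
    simp

theorem coset_of_norm {N : Subgroup Γ} [N.Normal] (hicc : ∀ x : Γ, x ≠ 1 → {y | ∃ n ∈ N, y = n * x * n⁻¹}.Infinite)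
    {T : HL Γ →L[ℂ] HL Γ} (hT : InL Γ T) (h1 : star T * T = 1) (h2 : T * star T = 1)
    (u : Γ → HL Γ →L[ℂ] HL Γ) (hu : ∀ g (f : HL Γ) x, (u g f) x = f (g⁻¹ * x))
    (B : Γ → HL Γ →L[ℂ] HL Γ) (hB : ∀ n ∈ N, InL Γ (B n)) (hBs : ∀ n ∈ N, ∀ x, x ∉ N → coe (B n) x = 0)
    (hBT : ∀ n ∈ N, T * u n = B n * T) :
    ∃ h : Γ ⧸ N, ∀ x : Γ, (QuotientGroup.mk' N) x ≠ h → coe T x = 0 := by
  classical
  -- a point of the support
  obtain ⟨x0, hx0⟩ : ∃ x, coe T x ≠ 0 := by
    by_contra hcon
    push Not at hcon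
    have h3 : T (dl 1) = 0 := by
      ext x
      exact hcon x
    have h4 : (dl (1 : Γ) : HL Γ) = 0 := by
      have h5 : (star T * T) (dl (1 : Γ)) = dl 1 := by rw [h1]; rfl
      rw [← h5]
      show star T (T (dl 1)) = 0
      rw [h3, map_zero]
    have h6 : inner ℂ (dl (1 : Γ)) (dl (1 : Γ) : HL Γ) = 0 := by rw [h4]; simp
    rw [inner_dl] at h6
    simp [dl] at h6
  refine ⟨(QuotientGroup.mk' N) x0, ?_⟩
  set S : Set Γ := {y | (QuotientGroup.mk' N) y = (QuotientGroup.mk' N) x0} with hS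
  set ξ : HL Γ := cutv S (T (dl 1)) with hξ
  have hmk : ∀ x y : Γ, x * y⁻¹ ∈ N → (QuotientGroup.mk' N) x = (QuotientGroup.mk' N) y := by
    intro x y hxy
    have h3 : (QuotientGroup.mk' N) (x * y⁻¹) = 1 := by
      rwa [QuotientGroup.mk'_apply, QuotientGroup.eq_one_iff]
    rw [map_mul, map_inv, mul_inv_eq_one] at h3
    exact h3
  have hmkn : ∀ n ∈ N, (QuotientGroup.mk' N) n = 1 := by
    intro n hn
    rwa [QuotientGroup.mk'_apply, QuotientGroup.eq_one_iff]
  -- `B n ξ` is the right translate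
  have hBξ : ∀ n ∈ N, ∀ x, (B n ξ) x = ξ (x * n⁻¹) := by
    intro n hn x
    by_cases hx : x ∈ S
    · have h3 : (B n ξ) x = (B n (T (dl 1))) x := by
        refine loc (hB n hn) (hBs n hn) _ _ x fun y hy => ?_
        exact cutv_mem (by rw [hS, Set.mem_ofPred_eq, ← hmk x y hy]; exact hx)
      have h4 : B n (T (dl 1)) = T (u n (dl 1)) := by
        have := congrArg (fun A : HL Γ →L[ℂ] HL Γ => A (dl 1)) (hBT n hn)
        exact this.symm
      have h5 : u n (dl 1) = (dl n : HL Γ) := by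
        ext x
        rw [hu]
        by_cases hxn : x = n
        · subst hxn
          rw [inv_mul_cancel, dl_self, dl_self]
        · rw [dl_ne hxn, dl_ne]
          intro h6
          exact hxn (inv_mul_eq_one.1 h6).symm
      have h6 : ξ (x * n⁻¹) = (T (dl 1)) (x * n⁻¹) := by
        refine cutv_mem ?_
        rw [hS, Set.mem_ofPred_eq, map_mul, map_inv, hmkn n hn, inv_one, mul_one]
        exact hx
      rw [h3, h4, h5, h6, apply_dl hT, apply_dl hT, inv_one, mul_one]
    · have h3 : (B n ξ) x = (B n (0 : HL Γ)) x := by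
        refine loc (hB n hn) (hBs n hn) _ _ x fun y hy => ?_
        have h4 : y ∉ S := by
          intro hy2
          exact hx (by rw [hS, Set.mem_ofPred_eq, hmk x y hy]; exact hy2)
        rw [hξ, cutv_notMem h4]
        rfl
      have h5 : x * n⁻¹ ∉ S := by
        intro h6
        rw [hS, Set.mem_ofPred_eq, map_mul, map_inv, hmkn n hn, inv_one, mul_one] at h6
        exact hx h6
      rw [h3, map_zero, hξ, cutv_notMem h5]
      rfl
  set ζ : HL Γ := star T ξ with hζ
  have hconj : ∀ n ∈ N, ∀ y, ζ y = ζ (n * y * n⁻¹) := by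
    intro n hn y
    have h3 : star T * B n = u n * star T := by
      calc star T * B n = star T * B n * (T * star T) := by rw [h2, mul_one]
        _ = star T * (B n * T) * star T := by simp only [mul_assoc]
        _ = star T * (T * u n) * star T := by rw [hBT n hn]
        _ = (star T * T) * u n * star T := by simp only [mul_assoc]
        _ = u n * star T := by rw [h1, one_mul]
    have h4 : (star T (B n ξ)) (n * y) = (star T ξ) (n * y * n⁻¹) :=
      inL_star hT n⁻¹ ξ (B n ξ) (hBξ n hn) (n * y)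
    have h5 : star T (B n ξ) = u n (star T ξ) := by
      have := congrArg (fun A : HL Γ →L[ℂ] HL Γ => A ξ) h3
      exact this
    rw [h5, hu, inv_mul_cancel_left] at h4
    exact h4
  have hzero : ∀ y, y ≠ 1 → ζ y = 0 := by
    intro y hy
    by_contra hne
    have h3 : Summable (fun z => ‖ζ z‖ ^ (2 : ENNReal).toReal) := (lp.memℓp ζ).summable (by norm_num)
    have h4 : 0 < ‖ζ y‖ ^ (2 : ENNReal).toReal := by
      have := norm_pos_iff.2 hne
      positivity
    have h5 := (h3.tendsto_cofinite_zero).eventually (gt_mem_nhds h4)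
    rw [Filter.eventually_cofinite] at h5
    refine (hicc y hy).mono ?_ h5
    rintro z ⟨n, hn, rfl⟩
    simp only [Set.mem_ofPred_eq, not_lt]
    rw [← hconj n hn y]
  have hζ1 : ζ = ζ 1 • (dl (1 : Γ) : HL Γ) := by
    ext y
    rw [lp.coeFn_smul, Pi.smul_apply, smul_eq_mul]
    by_cases hy : y = 1
    · subst hy
      have : (dl (1 : Γ) : HL Γ) 1 = 1 := by simp [dl]
      rw [this, mul_one]
    · have : (dl (1 : Γ) : HL Γ) y = 0 := by simp [dl, hy]
      rw [this, mul_zero, hzero y hy]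
  have hξT : ξ = ζ 1 • T (dl 1) := by
    have h3 : T ζ = ξ := by
      have : (T * star T) ξ = ξ := by rw [h2]; rfl
      exact this
    rw [← h3]
    conv_lhs => rw [hζ1]
    rw [map_smul]
  have hc : ζ 1 = 1 := by
    have h3 : ξ x0 = (T (dl 1)) x0 := cutv_mem (by rw [hS, Set.mem_ofPred_eq])
    rw [hξT, lp.coeFn_smul, Pi.smul_apply, smul_eq_mul] at h3
    have h4 : (T (dl 1)) x0 ≠ 0 := hx0
    exact mul_right_cancel₀ h4 (by rw [h3, one_mul])
  intro x hx
  have h3 : ξ x = 0 := cutv_notMem hx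
  rw [hξT, hc, one_smul] at h3
  exact h3

end Pool.MP_501efe_an.H20
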