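import Pool.Agent.Helper20.CE.Iso
import Pool.Agent.Helper20.CE.NormA
import Pool.Agent.Helper48.CE.Mix

/-!
# CE-N2: homomorphisms into the normaliser of `L(N)`

`v : Λ → U(L(Γ))` is a homomorphism which tends weakly to zero at infinity. If every `v s` is supported on one coset of `N` then these cosets define a homomorphism `q : Λ → Γ / N`
(`hom_of_cosets`). If `N` is relatively icc and the `v s` normalise `L(N)` then this is the case (`coset_of_norm`).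
For a `*`-isomorphism `Φ` of `L(Γ)` onto `L(Λ)` which carries `L(N)` onto `L(M)`, `M` normal, the unitaries `v s = Φ⁻¹ (lam s)` normalise `L(N)`.
-/

set_option autoImplicit false

namespace Pool.MP_501efe_an.H20

open scoped ComplexConjugate

/-- `v` is a homomorphism of `Λ` into the unitary group of `L(Γ)` which tends weakly to zero at infinity (the Fourier coefficients of `v s` tend to zero). -/
structure Rep {Γ Λ : Type} [Group Γ] [Group Λ] (v : Λ → HL Γ →L[ℂ] HL Γ) : Prop where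
  mem : ∀ s, InL Γ (v s)
  one : v 1 = 1
  mul : ∀ s t, v (s * t) = v s * v t
  star_eq : ∀ s, star (v s) = v s⁻¹
  mix : ∀ x, Filter.Tendsto (fun s => coe (v s) x) Filter.cofinite (nhds 0)

/-- `T` is supported on `S`: its Fourier coefficients vanish off `S`. -/
def SuppOn {Γ : Type} [Group Γ] (S : Set Γ) (T : HL Γ →L[ℂ] HL Γ) : Prop := ∀ x, x ∉ S → coe T x = 0

/-- Relatively icc: `{n x n⁻¹ : n ∈ N}` is infinite for each `x ≠ 1` in `Γ`. -/
def RelIcc {Γ : Type} [Group Γ] (N : Subgroup Γ) : Prop := ∀ x : Γ, x ≠ 1 → {y | ∃ n ∈ N, y = n * x * n⁻¹}.Infinite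

theorem exists_factor {Γ : Type} [Group Γ] {S T : HL Γ →L[ℂ] HL Γ} (hS : InL Γ S) {x : Γ} (h : coe (S * T) x ≠ 0) :
    ∃ y, coe S (x * y⁻¹) ≠ 0 ∧ coe T y ≠ 0 := by
  by_contra hcon
  push Not at hcon
  apply h
  have e1 : coe (S * T) x = ∑' y, inner ℂ (((star S) (dl x)) y) ((T (dl 1)) y) := by
    show (S (T (dl 1))) x = _
    rw [← inner_dl x (S (T (dl 1))), ← ContinuousLinearMap.adjoint_inner_left, lp.inner_eq_tsum, ContinuousLinearMap.star_eq_adjoint]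
  rw [e1]
  convert tsum_zero with y
  rw [apply_dl (inL_star hS), coe_star hS]
  have h2 : (y * x⁻¹)⁻¹ = x * y⁻¹ := by group
  rw [h2]
  by_cases h3 : coe S (x * y⁻¹) = 0
  · rw [h3, map_zero]; simp
  · have h4 : (T (dl 1)) y = 0 := hcon y h3
    rw [h4]; simp

theorem coe_conj {Λ : Type} [Group Λ] {X : HL Λ →L[ℂ] HL Λ} (hX : InL Λ X) (s t : Λ) :
    coe (lam77 s * X * lam77 s⁻¹) t = coe X (s⁻¹ * t * s) := by
  show (lam77 s (X (lam77 s⁻¹ (dl 1)))) t = _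
  rw [lam_apply77]
  have h1 : lam77 s⁻¹ (dl (1 : Λ)) = (dl s⁻¹ : HL Λ) := by
    ext x
    rw [lam_apply77, inv_inv]
    by_cases hx : x = s⁻¹
    · subst hx
      rw [mul_inv_cancel, dl_self, dl_self]
    · rw [dl_ne hx, dl_ne]
      intro h6
      exact hx (eq_inv_of_mul_eq_one_right h6)
  rw [h1, apply_dl hX, inv_inv]

theorem Rep.exists_ne {Γ Λ : Type} [Group Γ] [Group Λ] {v : Λ → HL Γ →L[ℂ] HL Γ} (hv : Rep v) (s : Λ) : ∃ x, coe (v s) x ≠ 0 := by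
  by_contra hcon
  push Not at hcon
  have h3 : v s (dl 1) = 0 := by
    ext x
    exact hcon x
  have h5 : (v s⁻¹ * v s) (dl (1 : Γ)) = dl 1 := by rw [← hv.mul, inv_mul_cancel, hv.one]; rfl
  have h4 : (dl (1 : Γ) : HL Γ) = 0 := by
    rw [← h5]
    show v s⁻¹ (v s (dl 1)) = 0
    rw [h3, map_zero]
  have h6 : (dl (1 : Γ) : HL Γ) 1 = 1 := dl_self 1
  rw [h4] at h6
  exact zero_ne_one h6

theorem hom_of_cosets {Γ Λ : Type} [Group Γ] [Group Λ] {N : Subgroup Γ} [N.Normal] {v : Λ → HL Γ →L[ℂ] HL Γ} (hv : Rep v)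
    (hc : ∀ s : Λ, ∃ h : Γ ⧸ N, ∀ x : Γ, (QuotientGroup.mk' N) x ≠ h → coe (v s) x = 0) :
    ∃ q : Λ →* Γ ⧸ N, Hyp (QuotientGroup.mk' N) q v := by
  choose q0 hq0 using hc
  have hq1 : ∀ s x, coe (v s) x ≠ 0 → (QuotientGroup.mk' N) x = q0 s := by
    intro s x hx
    by_contra h
    exact hx (hq0 s x h)
  have hmul : ∀ s t, q0 (s * t) = q0 s * q0 t := by
    intro s t
    obtain ⟨x, hx⟩ := hv.exists_ne (s * t)
    have h1 := hx
    rw [hv.mul] at h1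
    obtain ⟨y, hy1, hy2⟩ := exists_factor (hv.mem s) h1
    rw [← hq1 _ _ hx, ← hq1 _ _ hy1, ← hq1 _ _ hy2, ← map_mul]
    congr 1
    group
  exact ⟨MonoidHom.mk' q0 hmul, hv.mem, hv.one, hv.mul, hv.star_eq, hv.mix, hq0⟩

theorem cosets_of_norm {Γ Λ : Type} [Group Γ] [Group Λ] {N : Subgroup Γ} [N.Normal] {v : Λ → HL Γ →L[ℂ] HL Γ} (hv : Rep v)
    (hicc : RelIcc N) (hn : ∀ s T, InL Γ T → SuppOn (N : Set Γ) T → SuppOn (N : Set Γ) (v s * T * v s⁻¹)) (s : Λ) :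
    ∃ h : Γ ⧸ N, ∀ x : Γ, (QuotientGroup.mk' N) x ≠ h → coe (v s) x = 0 := by
  classical
  have hu1 : star (v s) * v s = 1 := by rw [hv.star_eq, ← hv.mul, inv_mul_cancel, hv.one]
  have hu2 : v s * star (v s) = 1 := by rw [hv.star_eq, ← hv.mul, mul_inv_cancel, hv.one]
  have hBin : ∀ n, InL Γ (v s * lam77 n * star (v s)) := fun n =>
    inL_mul77 (inL_mul77 (hv.mem s) (lam_inL77 n)) (inL_star (hv.mem s))
  refine coset_of_norm (N := N) hicc (hv.mem s) hu1 hu2 lam77 (fun g f x => lam_apply77 g f x)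
    (fun n => v s * lam77 n * star (v s)) (fun n _ => hBin n) ?_ ?_
  · intro n hnN
    rw [hv.star_eq]
    refine hn s (lam77 n) (lam_inL77 n) ?_
    intro x hx
    rw [lam_coe77, if_neg]
    rintro rfl
    exact hx hnN
  · intro n hnN
    simp only [mul_assoc, hu1, mul_one]

theorem RR_eq (G : Type) [Group G] : Pool.Agent.Helper48.CE.RR G = {T : HL G →L[ℂ] HL G | InL G T} := by
  ext T
  constructor
  · intro h g f f' hf x
    have h1 : f' = Pool.Agent.Helper84.GVN.rhoU g f := by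
      apply Pool.Agent.Helper84.GVN.l2_ext
      intro y
      rw [Pool.Agent.Helper84.GVN.rhoU_apply]
      exact hf y
    rw [h1, h g f]
    exact Pool.Agent.Helper84.GVN.rhoU_apply g _ x
  · intro h k f
    apply Pool.Agent.Helper84.GVN.l2_ext
    intro x
    have h1 := h k f (Pool.Agent.Helper84.GVN.rhoU k f) (fun y => Pool.Agent.Helper84.GVN.rhoU_apply k f y) x
    exact h1.trans (Pool.Agent.Helper84.GVN.rhoU_apply k _ x).symm

theorem lam_eq77 {G : Type} [Group G] (g : G) : (Pool.Agent.Helper84.GVN.lam g : HL G →L[ℂ] HL G) = lam77 g := by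
  refine ContinuousLinearMap.ext fun f => lp.ext (funext fun x => ?_)
  rw [lam_apply77]
  exact Pool.Agent.Helper84.GVN.lam_apply g f x

theorem dl_eq77 {G : Type} (g : G) : (Pool.Agent.Helper84.GVN.dl g : HL G) = dl g := by
  classical
  refine lp.ext (funext fun x => ?_)
  rw [dl_apply77, Pool.Agent.Helper84.GVN.dl_apply]

/-- The unitaries `v s = Φ⁻¹ (lam s)`. -/
theorem exists_lam {Γ Λ : Type} [Group Γ] [Group Λ] {Φ : (HL Γ →L[ℂ] HL Γ) → (HL Λ →L[ℂ] HL Λ)} (hΦ : IsIso Φ) :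
    ∃ v : Λ → HL Γ →L[ℂ] HL Γ, Rep v ∧ ∀ s, Φ (v s) = lam77 s := by
  classical
  have hΦ' := hΦ
  obtain ⟨hb, ha⟩ := hΦ
  have hv : ∀ s : Λ, ∃ T : HL Γ →L[ℂ] HL Γ, InL Γ T ∧ Φ T = lam77 s := by
    intro s
    obtain ⟨T, hT, hT'⟩ := hb.surjOn (lam_inL77 s)
    exact ⟨T, hT, hT'⟩
  choose v hv1 hv2 using hv
  have hinj : ∀ S T : HL Γ →L[ℂ] HL Γ, InL Γ S → InL Γ T → Φ S = Φ T → S = T := fun S T hS hT h =>
    hb.injOn hS hT h
  have hone : Φ 1 = 1 := by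
    have h1 := (ha 1 (inL_one77 Γ) (v 1) (hv1 1)).2.1
    rw [one_mul, hv2, lam_one77, mul_one] at h1
    exact h1.symm
  have v1 : v 1 = 1 := by
    refine hinj _ _ (hv1 1) (inL_one77 Γ) ?_
    rw [hv2, hone, lam_one77]
  have vmul : ∀ s t, v (s * t) = v s * v t := by
    intro s t
    refine hinj _ _ (hv1 _) (inL_mul77 (hv1 s) (hv1 t)) ?_
    rw [(ha _ (hv1 s) _ (hv1 t)).2.1, hv2, hv2, hv2, lam_mul77]
  have vstar : ∀ s, star (v s) = v s⁻¹ := by
    intro s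
    refine hinj _ _ (inL_star77 (hv1 s)) (hv1 _) ?_
    rw [(ha _ (hv1 s) _ (hv1 s)).2.2.1, hv2, hv2, lam_star77]
  -- weak convergence to zero
  have hR : Pool.Agent.Helper48.CE.IsoR (G := Γ) (H := Λ) Φ := by
    have hb' := hb
    refine ⟨?_, ?_, ?_, ?_, ?_⟩
    · rw [RR_eq, RR_eq]
      exact hb
    · intro S hS T hT
      rw [RR_eq] at hS hT
      exact (ha S hS T hT).1
    · intro S hS T hT
      rw [RR_eq] at hS hT
      exact (ha S hS T hT).2.1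
    · intro S hS
      rw [RR_eq] at hS
      exact (ha S hS S hS).2.2.1
    · intro S hS c
      rw [RR_eq] at hS
      exact (ha S hS S hS).2.2.2 c
  obtain ⟨Ψ, hΨ, hΨ1, hΨ2⟩ := hR.symm
  have hmix : ∀ x, Filter.Tendsto (fun s => coe (v s) x) Filter.cofinite (nhds 0) := by
    intro x
    have h1 := Pool.Agent.Helper48.CE.mixing hΨ x
    have h2 : (fun t : Λ => ((Ψ (Pool.Agent.Helper84.GVN.lam t)) (Pool.Agent.Helper84.GVN.dl 1)) x) = fun s => coe (v s) x := by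
      funext s
      have h3 : Ψ (Pool.Agent.Helper84.GVN.lam s) = v s := by
        rw [lam_eq77, ← hv2 s]
        exact hΨ1 (v s) (by rw [RR_eq]; exact hv1 s)
      rw [h3, dl_eq77]
      rfl
    rw [h2] at h1
    exact h1
  exact ⟨v, ⟨hv1, v1, vmul, vstar, hmix⟩, hv2⟩

theorem suppOn_iff {Γ Λ : Type} [Group Γ] [Group Λ] {v : Λ → HL Γ →L[ℂ] HL Γ}
    {Φ : (HL Γ →L[ℂ] HL Γ) → (HL Λ →L[ℂ] HL Λ)} (hv2 : ∀ s, Φ (v s) = lam77 s) (M : Set Λ) (s : Λ) :
    SuppOn M (Φ (v s)) ↔ s ∈ M := by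
  classical
  rw [hv2]
  constructor
  · intro h
    by_contra hs
    have h1 := h s hs
    rw [lam_coe77, if_pos rfl] at h1
    exact one_ne_zero h1
  · intro hs t ht
    rw [lam_coe77, if_neg]
    rintro rfl
    exact ht hs

theorem exists_rep {Γ Λ : Type} [Group Γ] [Group Λ] {N : Subgroup Γ} {M : Subgroup Λ} [M.Normal]
    {Φ : (HL Γ →L[ℂ] HL Γ) → (HL Λ →L[ℂ] HL Λ)} (hΦ : IsIso Φ)
    (hNM : ∀ T, InL Γ T → (SuppOn (N : Set Γ) T ↔ SuppOn (M : Set Λ) (Φ T))) :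
    ∃ v : Λ → HL Γ →L[ℂ] HL Γ, Rep v ∧ (∀ s, SuppOn (N : Set Γ) (v s) ↔ s ∈ M) ∧
      ∀ s T, InL Γ T → SuppOn (N : Set Γ) T → SuppOn (N : Set Γ) (v s * T * v s⁻¹) := by
  classical
  obtain ⟨v, hv, hv2⟩ := exists_lam hΦ
  obtain ⟨hb, ha⟩ := hΦ
  have hv1 := hv.mem
  refine ⟨v, hv, ?_, ?_⟩
  · intro s
    rw [hNM _ (hv1 s)]
    exact suppOn_iff hv2 _ s
  · intro s T hT hTN
    rw [hNM _ (inL_mul77 (inL_mul77 (hv1 s) hT) (hv1 s⁻¹))]
    intro t ht
    have h1 : Φ (v s * T * v s⁻¹) = lam77 s * Φ T * lam77 s⁻¹ := by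
      rw [(ha _ (inL_mul77 (hv1 s) hT) _ (hv1 s⁻¹)).2.1, (ha _ (hv1 s) _ hT).2.1, hv2, hv2]
    have h2 : InL Λ (Φ T) := hb.mapsTo hT
    rw [h1, coe_conj h2]
    refine (hNM _ hT).1 hTN _ ?_
    intro h3
    apply ht
    have h4 := (inferInstance : M.Normal).conj_mem _ h3 s
    have h5 : s * (s⁻¹ * t * s) * s⁻¹ = t := by group
    rwa [h5] at h4

end Pool.MP_501efe_an.H20
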