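import Pool.Agent.Helper20.CE.Top

/-!
# Project CE (MP_501efe_an): definitions for the statement of the result
-/

set_option autoImplicit false

namespace Pool.MP_501efe_an.H20.Stmt

open Filter Topology

/-- The Hilbert space `ℓ²(Γ)` of square summable complex functions on `Γ`. -/
def L2 (Γ : Type) : Type := lp (fun _ : Γ => ℂ) 2

noncomputable instance (Γ : Type) : NormedAddCommGroup (L2 Γ) :=
  (inferInstance : NormedAddCommGroup (lp (fun _ : Γ => ℂ) 2))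

noncomputable instance (Γ : Type) : InnerProductSpace ℂ (L2 Γ) :=
  (inferInstance : InnerProductSpace ℂ (lp (fun _ : Γ => ℂ) 2))

instance (Γ : Type) : CompleteSpace (L2 Γ) :=
  (inferInstance : CompleteSpace (lp (fun _ : Γ => ℂ) 2))

/-- The value of `f ∈ ℓ²(Γ)` at a point. -/
def L2.val {Γ : Type} (f : L2 Γ) : Γ → ℂ := Subtype.val (p := fun f => f ∈ lp (fun _ : Γ => ℂ) 2) f

/-- The basis vector of `ℓ²(Γ)` at the neutral element. -/
noncomputable def unitVec (Γ : Type) [Group Γ] : L2 Γ := by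
  classical exact (lp.single 2 (1 : Γ) (1 : ℂ) : lp (fun _ : Γ => ℂ) 2)

/-- The bounded operators on `ℓ²(Γ)`. -/
def BH (Γ : Type) : Type := L2 Γ →L[ℂ] L2 Γ

noncomputable instance (Γ : Type) : CStarAlgebra (BH Γ) :=
  (inferInstance : CStarAlgebra (L2 Γ →L[ℂ] L2 Γ))

/-- The value of a bounded operator at a vector. -/
noncomputable def app {Γ : Type} (T : BH Γ) (f : L2 Γ) : L2 Γ := (show L2 Γ →L[ℂ] L2 Γ from T) f

/-- The group von Neumann algebra `L(Γ)`, as the commutant of the right translations, in the form of the frozen statement. -/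
def VN (Γ : Type) [Group Γ] : Set (BH Γ) :=
  {T | ∀ (g : Γ) (f f' : L2 Γ), (∀ h : Γ, f'.val h = f.val (h * g)) → ∀ h : Γ, (app T f').val h = (app T f).val (h * g)}

/-- The Fourier coefficient of `T` at `x`. -/
noncomputable def coef {Γ : Type} [Group Γ] (T : BH Γ) (x : Γ) : ℂ := (app T (unitVec Γ)).val x

/-- `T` is supported on `S`: its Fourier coefficients vanish off `S`. -/
def SuppOn {Γ : Type} [Group Γ] (S : Set Γ) (T : BH Γ) : Prop := ∀ x, x ∉ S → coef T x = 0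

/-- `Φ` restricts to a `*`-isomorphism of `L(Γ)` onto `L(Λ)`, in the form of the frozen statement. -/
def IsIso {Γ Λ : Type} [Group Γ] [Group Λ] (Φ : BH Γ → BH Λ) : Prop :=
  Set.BijOn Φ (VN Γ) (VN Λ) ∧
  ∀ S ∈ VN Γ, ∀ T ∈ VN Γ, Φ (S + T) = Φ S + Φ T ∧ Φ (S * T) = Φ S * Φ T ∧ Φ (star S) = star (Φ S) ∧ ∀ c : ℂ, Φ (c • S) = c • Φ S

/-- `v` is a homomorphism of `Λ` into the unitary group of `L(Γ)` which tends weakly to zero at infinity. -/
structure Rep {Γ Λ : Type} [Group Γ] [Group Λ] (v : Λ → BH Γ) : Prop where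
  mem : ∀ s, v s ∈ VN Γ
  one : v 1 = 1
  mul : ∀ s t, v (s * t) = v s * v t
  star_eq : ∀ s, star (v s) = v s⁻¹
  mix : ∀ x, Tendsto (fun s => coef (v s) x) cofinite (𝓝 0)

theorem main1 {Γ Λ : Type} [Group Γ] [Group Λ] [Countable Λ] (N : Subgroup Γ) [N.Normal] (v : Λ → BH Γ) (hv : Rep v)
    (h : (∀ s, ∃ g : Γ, SuppOn {x | g⁻¹ * x ∈ N} (v s)) ∨
      (RelIcc N ∧ ∀ s, ∀ T ∈ VN Γ, SuppOn (N : Set Γ) T → SuppOn (N : Set Γ) (v s * T * v s⁻¹))) :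
    ∃ M : Subgroup Λ, (∀ s, s ∈ M ↔ SuppOn (N : Set Γ) (v s)) ∧ (EquivCE N → EquivCE M) ∧ (Amen N → CE Γ → CE Λ) := by
  have hv' : H20.Rep (Γ := Γ) (Λ := Λ) (fun s => (v s : HL Γ →L[ℂ] HL Γ)) := ⟨hv.mem, hv.one, hv.mul, hv.star_eq, hv.mix⟩
  exact H20.main1 N (fun s => (v s : HL Γ →L[ℂ] HL Γ)) hv' h

theorem main2 {Γ Λ : Type} [Group Γ] [Group Λ] [Countable Λ] (N : Subgroup Γ) [N.Normal] (M : Subgroup Λ) [M.Normal]
    (Φ : BH Γ → BH Λ) (hΦ : IsIso Φ)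
    (h : (∃ σ : Γ ⧸ N ≃* Λ ⧸ M, ∀ (g : Γ ⧸ N), ∀ T ∈ VN Γ,
        (SuppOn {x : Γ | (x : Γ ⧸ N) = g} T ↔ SuppOn {s : Λ | (s : Λ ⧸ M) = σ g} (Φ T))) ∨
      (RelIcc N ∧ ∀ T ∈ VN Γ, (SuppOn (N : Set Γ) T ↔ SuppOn (M : Set Λ) (Φ T)))) :
    (EquivCE N → EquivCE M) ∧ (Amen N → CE Γ → CE Λ) :=
  H20.main2 N M (fun T : HL Γ →L[ℂ] HL Γ => (Φ T : HL Λ →L[ℂ] HL Λ)) hΦ h

end Pool.MP_501efe_an.H20.Stmt
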