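import Pool.Agent.Helper20.CE.Est
import Pool.Agent.Helper20.CE.Asm
import Pool.Agent.Helper20.CE.Avg
import Pool.Agent.Helper20.CE.NormB

/-!
# Project CE (MP_501efe_an): the theorems
-/

set_option autoImplicit false

namespace Pool.MP_501efe_an.H20

/-- `N`-equivariant coarse embedding: `Γ` has a coarse embedding `F` into a Hilbert space (an inner product space, which may be completed) such that
`‖F (n x) - F (n y)‖ = ‖F x - F y‖` for all `n ∈ N`. For `N` trivial this is coarse embeddability of `Γ`, for `N = Γ` it is the Haagerup property. -/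
def EquivCE {Γ : Type} [Group Γ] (N : Subgroup Γ) : Prop :=
  ∃ (E : Type) (_ : NormedAddCommGroup E) (_ : InnerProductSpace ℝ E) (F : Γ → E),
    (∀ K : Finset Γ, ∃ C : ℝ, ∀ x y : Γ, x⁻¹ * y ∈ K → ‖F x - F y‖ ≤ C) ∧
    (∀ R : ℝ, ∃ K : Finset Γ, ∀ x y : Γ, ‖F x - F y‖ ≤ R → x⁻¹ * y ∈ K) ∧
    ∀ n ∈ N, ∀ x y : Γ, ‖F (n * x) - F (n * y)‖ = ‖F x - F y‖

theorem embed {Γ Λ H : Type} [Group Γ] [Group Λ] [Countable Λ] [Group H] {p : Γ →* H} {q : Λ →* H} {v : Λ → HL Γ →L[ℂ] HL Γ}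
    (hv : Hyp p q v) (hF : EqCE p) : EqCE q :=
  assemble q fun K ε hε => est hv hF K ε hε

theorem EqCE.ce {Γ H : Type} [Group Γ] [Group H] {p : Γ →* H} (h : EqCE p) : CE Γ := by
  obtain ⟨E, i1, i2, F, h1, h2, -⟩ := h
  exact ⟨E, i1, i2, F, h1, h2⟩

theorem equivCE_iff {Γ H : Type} [Group Γ] [Group H] {p : Γ →* H} {N : Subgroup Γ} (h : ∀ x, x ∈ N ↔ p x = 1) : EquivCE N ↔ EqCE p := by
  constructor
  · rintro ⟨E, i1, i2, F, h1, h2, h3⟩
    exact ⟨E, i1, i2, F, h1, h2, fun n x y hn => h3 n ((h n).2 hn) x y⟩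
  · rintro ⟨E, i1, i2, F, h1, h2, h3⟩
    exact ⟨E, i1, i2, F, h1, h2, fun n hn x y => h3 n x y ((h n).1 hn)⟩

theorem main1 {Γ Λ : Type} [Group Γ] [Group Λ] [Countable Λ] (N : Subgroup Γ) [N.Normal] (v : Λ → HL Γ →L[ℂ] HL Γ) (hv : Rep v)
    (h : (∀ s, ∃ g : Γ, SuppOn {x | g⁻¹ * x ∈ N} (v s)) ∨
      (RelIcc N ∧ ∀ s T, InL Γ T → SuppOn (N : Set Γ) T → SuppOn (N : Set Γ) (v s * T * v s⁻¹))) :
    ∃ M : Subgroup Λ, (∀ s, s ∈ M ↔ SuppOn (N : Set Γ) (v s)) ∧ (EquivCE N → EquivCE M) ∧ (Amen N → CE Γ → CE Λ) := by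
  have hc : ∀ s : Λ, ∃ h : Γ ⧸ N, ∀ x : Γ, (QuotientGroup.mk' N) x ≠ h → coe (v s) x = 0 := by
    rcases h with h | ⟨hicc, hn⟩
    · intro s
      obtain ⟨g, hg⟩ := h s
      refine ⟨(QuotientGroup.mk' N) g, fun x hx => hg x ?_⟩
      intro h1
      apply hx
      rw [Set.mem_ofPred_eq] at h1
      exact (QuotientGroup.eq.2 h1).symm
    · exact cosets_of_norm hv hicc hn
  obtain ⟨q, hq⟩ := hom_of_cosets hv hc
  have hN : ∀ x, x ∈ N ↔ (QuotientGroup.mk' N) x = 1 := by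
    intro x
    rw [QuotientGroup.mk'_apply, QuotientGroup.eq_one_iff]
  have hM : ∀ s, s ∈ q.ker ↔ q s = 1 := fun s => MonoidHom.mem_ker
  refine ⟨q.ker, ?_, ?_, ?_⟩
  · intro s
    rw [hM]
    constructor
    · intro h1 x hx
      refine hq.gr s x ?_
      rw [h1]
      intro h2
      exact hx ((hN x).2 h2)
    · intro h1
      obtain ⟨x, hx⟩ := hv.exists_ne s
      have h2 : (QuotientGroup.mk' N) x = q s := by
        by_contra h3
        exact hx (hq.gr s x h3)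
      have h3 : x ∈ N := by
        by_contra h4
        exact hx (h1 x h4)
      rw [← h2, (hN x).1 h3]
  · intro hF
    exact (equivCE_iff hM).2 (embed hq ((equivCE_iff hN).1 hF))
  · intro hA hF
    have hA' : Amen (QuotientGroup.mk' N).ker := by
      rw [QuotientGroup.ker_mk']
      exact hA
    exact (embed hq (avg _ hA' hF)).ce

theorem main2 {Γ Λ : Type} [Group Γ] [Group Λ] [Countable Λ] (N : Subgroup Γ) [N.Normal] (M : Subgroup Λ) [M.Normal]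
    (Φ : (HL Γ →L[ℂ] HL Γ) → (HL Λ →L[ℂ] HL Λ)) (hΦ : IsIso Φ)
    (h : (∃ σ : Γ ⧸ N ≃* Λ ⧸ M, ∀ (g : Γ ⧸ N) (T : HL Γ →L[ℂ] HL Γ), InL Γ T →
        (SuppOn {x : Γ | (x : Γ ⧸ N) = g} T ↔ SuppOn {s : Λ | (s : Λ ⧸ M) = σ g} (Φ T))) ∨
      (RelIcc N ∧ ∀ T, InL Γ T → (SuppOn (N : Set Γ) T ↔ SuppOn (M : Set Λ) (Φ T)))) :
    (EquivCE N → EquivCE M) ∧ (Amen N → CE Γ → CE Λ) := by
  rcases h with ⟨σ, hσ⟩ | ⟨hicc, hNM⟩
  · obtain ⟨v, hv, hv2⟩ := exists_lam hΦ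
    have hc : ∀ s, ∃ g : Γ, SuppOn {x | g⁻¹ * x ∈ N} (v s) := by
      intro s
      obtain ⟨g, hg⟩ := QuotientGroup.mk_surjective (σ.symm (s : Λ ⧸ M))
      refine ⟨g, ?_⟩
      have h1 : SuppOn {s' : Λ | (s' : Λ ⧸ M) = σ (g : Γ ⧸ N)} (Φ (v s)) := by
        rw [suppOn_iff hv2]
        show (s : Λ ⧸ M) = σ (g : Γ ⧸ N)
        rw [hg, MulEquiv.apply_symm_apply]
      have h2 := (hσ (g : Γ ⧸ N) (v s) (hv.mem s)).2 h1
      intro x hx
      refine h2 x ?_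
      intro h3
      exact hx (QuotientGroup.eq.1 h3.symm)
    obtain ⟨M', hM', h1, h2⟩ := main1 N v hv (Or.inl hc)
    have h3 : M' = M := by
      ext s
      rw [hM']
      have h4 := hσ 1 (v s) (hv.mem s)
      have h5 : {x : Γ | (x : Γ ⧸ N) = 1} = (N : Set Γ) := by
        ext x
        exact QuotientGroup.eq_one_iff x
      have h6 : {s : Λ | (s : Λ ⧸ M) = σ 1} = (M : Set Λ) := by
        ext x
        rw [map_one]
        exact QuotientGroup.eq_one_iff x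
      rw [h5, h6] at h4
      rw [h4]
      exact suppOn_iff hv2 _ s
    rw [h3] at h1
    exact ⟨h1, h2⟩
  · obtain ⟨v, hv, hvM, hn⟩ := exists_rep hΦ hNM
    obtain ⟨M', hM', h1, h2⟩ := main1 N v hv (Or.inr ⟨hicc, hn⟩)
    have h3 : M' = M := by
      ext s
      rw [hM', hvM]
    rw [h3] at h1
    exact ⟨h1, h2⟩

end Pool.MP_501efe_an.H20
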