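import Pool.Agent.Helper20.CE.Coef
import Pool.Agent.Helper20.CE.Moore

/-!
# CE-D: the transfer of kernels

Notation `c s x = coe (v s) x`, `r = t⁻¹ s`. Let `k` be a positive definite kernel on `Γ` with `k x x = 1`, invariant under left multiplication by the kernel of `p`.

1. `G (s, x) (t, y) = ⟪v s δ_{x⁻¹}, v t δ_{y⁻¹}⟫ * k x y` is a positive semidefinite matrix on `Λ × Γ`.
   By `moore` there are vectors `g (s, x)` with these inner products, in a complete space.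
2. For fixed `s` the `g (s, x)` are orthonormal: `⟪v s δ_{x⁻¹}, v s δ_{y⁻¹}⟫ = ⟪δ_{x⁻¹}, δ_{y⁻¹}⟫`. So `ζ s = ∑' x, conj (c s x) • g (s, x)` converges (`∑ |c s x|² = 1`).
3. `⟪ζ s, ζ t⟫ = ∑' x, c s x * ⟪g (s, x), ζ t⟫` and, for `p x = q s` (otherwise `c s x = 0`),
   `⟪g (s, x), ζ t⟫ = ∑' y, conj (c t y) * ⟪v s δ_{x⁻¹}, v t δ_{y⁻¹}⟫ * k x y`, where `⟪v s δ_{x⁻¹}, v t δ_{y⁻¹}⟫ = ⟪v r δ_{x⁻¹}, δ_{y⁻¹}⟫ = conj (c r (y⁻¹ x))`.
   Substitute `y = x z⁻¹`, `z = y⁻¹ x`: `conj (c t (x z⁻¹)) = c t⁻¹ (z x⁻¹) = (v t⁻¹ δ_x)(z)`, and `k x (x z⁻¹) = κ z` does not depend on the choice of `x` with `p x = q s`.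
   So, with `w z = c r z * κ z`: `⟪g (s, x), ζ t⟫ = ∑' z, conj (w z) * (v t⁻¹ δ_x)(z) = ⟪w, v t⁻¹ δ_x⟫`.
4. `⟪ζ s, ζ t⟫ = ∑' x, c s x * ⟪w, v t⁻¹ δ_x⟫ = ⟪w, v t⁻¹ (v s δ_1)⟫ = ⟪w, v r δ_1⟫ = ∑' z, conj (w z) * c r z = ∑' z, |c r z|² κ z`.
-/

set_option autoImplicit false

namespace Pool.MP_501efe_an.H20

open scoped ComplexConjugate ComplexOrder

variable {Γ Λ H : Type} [Group Γ] [Group Λ] [Group H]

theorem gram_psd {X W : Type} [NormedAddCommGroup W] [InnerProductSpace ℂ W] (f : X → W) :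
    (Matrix.of fun x y : X => (inner ℂ (f x) (f y) : ℂ)).PosSemidef := by
  refine ⟨?_, fun x => ?_⟩
  · ext i j
    simp only [Matrix.conjTranspose_apply, Matrix.of_apply]
    exact inner_conj_symm _ _
  · have h : (x.sum fun i xi ↦ x.sum fun j xj ↦ star xi * (Matrix.of fun x y => (inner ℂ (f x) (f y) : ℂ)) i j * xj) =
        inner ℂ (x.sum fun i xi => xi • f i) (x.sum fun i xi => xi • f i) := by
      simp only [Finsupp.sum, sum_inner, inner_sum, inner_smul_left, inner_smul_right, Matrix.of_apply, Complex.star_def]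
      rw [Finset.sum_comm]
      refine Finset.sum_congr rfl fun i _ => ?_
      rw [Finset.mul_sum]
      refine Finset.sum_congr rfl fun j _ => ?_
      ring
    rw [h, inner_self_eq_norm_sq_to_K]
    simp

theorem coe_one_self : coe (1 : HL Γ →L[ℂ] HL Γ) 1 = 1 := by
  classical
  show (dl (1 : Γ) : HL Γ) 1 = 1
  simp only [dl]
  rw [lp.single_apply]
  simp

theorem coe_one_ne {z : Γ} (h : z ≠ 1) : coe (1 : HL Γ →L[ℂ] HL Γ) z = 0 := by
  classical
  show (dl (1 : Γ) : HL Γ) z = 0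
  simp only [dl]
  rw [lp.single_apply]
  simp [h]

theorem transfer {p : Γ →* H} {q : Λ →* H} {v : Λ → HL Γ →L[ℂ] HL Γ} (hv : Hyp p q v) (k : Γ → Γ → ℝ)
    (hpd : (Matrix.of fun x y : Γ => ((k x y : ℝ) : ℂ)).PosSemidef) (hone : ∀ x, k x x = 1)
    (hinv : ∀ n x y, p n = 1 → k (n * x) (n * y) = k x y) :
    ∃ (E : Type) (_ : NormedAddCommGroup E) (_ : InnerProductSpace ℂ E) (ζ : Λ → E),
      ∀ (s t : Λ) (x : Γ), p x = q s →
        inner ℂ (ζ s) (ζ t) = ((∑' z, ‖coe (v (t⁻¹ * s)) z‖ ^ 2 * k x (x * z⁻¹) : ℝ) : ℂ) := by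
  -- the bound on k
  have hk1 : ∀ x y, |k x y| ≤ 1 := by
    obtain ⟨W, _, _, _, g0, hg0⟩ := moore (fun x y => ((k x y : ℝ) : ℂ)) hpd
    have hn : ∀ x, ‖g0 x‖ = 1 := by
      intro x
      have h := hg0 x x
      rw [hone, inner_self_eq_norm_sq_to_K] at h
      have h2 : ‖g0 x‖ ^ 2 = 1 := by
        have h3 : ((‖g0 x‖ ^ 2 : ℝ) : ℂ) = ((1 : ℝ) : ℂ) := by simpa using h
        exact Complex.ofReal_injective h3
      nlinarith [norm_nonneg (g0 x)]
    intro x y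
    have h := norm_inner_le_norm (𝕜 := ℂ) (g0 x) (g0 y)
    rw [hg0, hn, hn] at h
    simpa using h
  -- the matrix G
  let G : Λ × Γ → Λ × Γ → ℂ := fun a b => inner ℂ (v a.1 (dl a.2⁻¹)) (v b.1 (dl b.2⁻¹)) * ((k a.2 b.2 : ℝ) : ℂ)
  have hG : (Matrix.of G).PosSemidef := by
    have h1 := gram_psd (fun a : Λ × Γ => v a.1 (dl a.2⁻¹))
    have h2 := hpd.submatrix (fun a : Λ × Γ => a.2)
    exact h1.hadamard h2
  obtain ⟨E, iN, iI, iC, g, hg⟩ := moore G hG
  have hval : ∀ (s t : Λ) (x y : Γ), inner ℂ (g (s, x)) (g (t, y)) =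
      conj (coe (v (t⁻¹ * s)) (y⁻¹ * x)) * ((k x y : ℝ) : ℂ) := by
    intro s t x y
    rw [hg]
    simp only [G]
    rw [inner_v hv, inner_dl', apply_dl (hv.mem _), inv_inv]
  have horth : ∀ s : Λ, Orthonormal ℂ (fun x : Γ => g (s, x)) := by
    classical
    intro s
    rw [orthonormal_iff_ite]
    intro x y
    rw [hval, inv_mul_cancel, hv.one]
    by_cases h : x = y
    · subst h; simp [hone, coe_one_self]
    · have h' : y⁻¹ * x ≠ 1 := by
        intro h2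
        exact h (by rw [inv_mul_eq_one] at h2; exact h2.symm)
      simp [h, coe_one_ne h']
  have hsum : ∀ s : Λ, Summable (fun x : Γ => conj (coe (v s) x) • g (s, x)) := by
    intro s
    have h := ((horth s).orthogonalFamily.summable_iff_norm_sq_summable (fun x => conj (coe (v s) x))).2 (by
      simpa using (hasSum_sq hv s).summable)
    simpa using h
  refine ⟨E, iN, iI, fun s => ∑' x, conj (coe (v s) x) • g (s, x), ?_⟩
  intro s t x0 hx0
  set ζ : Λ → E := fun s => ∑' x, conj (coe (v s) x) • g (s, x) with hζ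
  have HS1 : ∀ (a : E) (t : Λ), HasSum (fun y => conj (coe (v t) y) * inner ℂ a (g (t, y))) (inner ℂ a (ζ t)) := by
    intro a t
    have h := (hsum t).hasSum.mapL (innerSL ℂ a)
    simpa [inner_smul_right] using h
  have HS2 : ∀ (b : E) (s : Λ), HasSum (fun y => coe (v s) y * inner ℂ (g (s, y)) b) (inner ℂ (ζ s) b) := by
    intro b s
    have h := (HS1 b s).star
    simp only [star_mul', Complex.star_def, Complex.conj_conj, inner_conj_symm] at h
    exact h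
  set r : Λ := t⁻¹ * s with hr
  -- the vector w
  have hwm : Memℓp (fun z : Γ => coe (v r) z * ((k x0 (x0 * z⁻¹) : ℝ) : ℂ)) 2 := by
    apply memℓp_gen
    have h1 : Summable (fun z => ‖coe (v r) z‖ ^ 2) := (hasSum_sq hv r).summable
    refine Summable.of_nonneg_of_le (fun z => by positivity) (fun z => ?_) h1
    simp only [ENNReal.toReal_ofNat, Real.rpow_ofNat, norm_mul, mul_pow]
    have h2 : ‖((k x0 (x0 * z⁻¹) : ℝ) : ℂ)‖ ≤ 1 := by simpa using hk1 _ _
    have h3 : ‖((k x0 (x0 * z⁻¹) : ℝ) : ℂ)‖ ^ 2 ≤ 1 := by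
      have := norm_nonneg ((k x0 (x0 * z⁻¹) : ℝ) : ℂ)
      nlinarith
    have h4 : 0 ≤ ‖coe (v r) z‖ ^ 2 := by positivity
    nlinarith
  let w : HL Γ := ⟨_, hwm⟩
  have hw : ∀ z, w z = coe (v r) z * ((k x0 (x0 * z⁻¹) : ℝ) : ℂ) := fun z => rfl
  have step3 : ∀ x, p x = q s → inner ℂ (g (s, x)) (ζ t) = inner ℂ w (v t⁻¹ (dl x)) := by
    intro x hx
    have h1 := HS1 (g (s, x)) t
    have h2 := lp.hasSum_inner (𝕜 := ℂ) w (v t⁻¹ (dl x))
    let e : Γ ≃ Γ := (Equiv.inv Γ).trans (Equiv.mulLeft x)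
    have h3 := (e.hasSum_iff (f := fun y => conj (coe (v t) y) * inner ℂ (g (s, x)) (g (t, y)))).2 h1
    suffices h8 : (fun y => conj (coe (v t) y) * inner ℂ (g (s, x)) (g (t, y))) ∘ e =
        fun z => inner ℂ (w z) ((v t⁻¹ (dl x)) z) by
      rw [h8] at h3
      exact HasSum.unique h3 h2
    funext z
    simp only [Function.comp_apply, e, Equiv.trans_apply, Equiv.inv_apply, Equiv.coe_mulLeft]
    rw [hval, RCLike.inner_apply, hw]
    have h4 : (x * z⁻¹)⁻¹ * x = z := by group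
    have h5 : k x (x * z⁻¹) = k x0 (x0 * z⁻¹) := by
      have h6 := hinv (x * x0⁻¹) x0 (x0 * z⁻¹) (by rw [map_mul, map_inv, hx, hx0, mul_inv_cancel])
      rw [show x * x0⁻¹ * x0 = x by group, show x * x0⁻¹ * (x0 * z⁻¹) = x * z⁻¹ by group] at h6
      exact h6
    have h7 : (v t⁻¹ (dl x)) z = conj (coe (v t) (x * z⁻¹)) := by
      rw [apply_dl (hv.mem _), coe_inv hv]
      congr 2
      group
    rw [h4, h5, h7, ← hr]
    simp only [map_mul, Complex.conj_ofReal]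
  have step4 : inner ℂ (ζ s) (ζ t) = inner ℂ w (v r (dl 1)) := by
    classical
    have h1 := HS2 (ζ t) s
    have h2 : HasSum (fun x => coe (v s) x • (dl x : HL Γ)) (v s (dl 1)) := by
      have h3 := lp.hasSum_single (p := 2) (by norm_num) (v s (dl (1 : Γ)))
      convert h3 using 1
      funext x
      have h4 := lp.single_smul (𝕜 := ℂ) (E := fun _ : Γ => ℂ) 2 x (coe (v s) x) (1 : ℂ)
      simp only [smul_eq_mul, mul_one] at h4
      simp only [dl]
      rw [← h4]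
      rfl
    have h5 := (h2.mapL (v t⁻¹)).mapL (innerSL ℂ w)
    have h6 : v t⁻¹ (v s (dl 1)) = v r (dl 1) := by
      rw [hr, hv.mul]; rfl
    simp only [innerSL_apply_apply, h6] at h5
    suffices h8 : (fun x => coe (v s) x * inner ℂ (g (s, x)) (ζ t)) =
        fun x => inner ℂ w (v t⁻¹ (coe (v s) x • (dl x : HL Γ))) by
      rw [h8] at h1
      exact HasSum.unique h1 h5
    funext x
    rw [map_smul, inner_smul_right]
    by_cases hx : p x = q s
    · rw [step3 x hx]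
    · rw [hv.gr s x hx]; simp
  show inner ℂ (ζ s) (ζ t) = _
  rw [step4]
  have h1 := lp.hasSum_inner (𝕜 := ℂ) w (v r (dl 1))
  have h2 : (fun z => inner ℂ (w z) ((v r (dl 1)) z)) = fun z => ((‖coe (v r) z‖ ^ 2 * k x0 (x0 * z⁻¹) : ℝ) : ℂ) := by
    funext z
    rw [RCLike.inner_apply, hw]
    have h3 : (v r (dl 1)) z = coe (v r) z := rfl
    rw [h3, map_mul, Complex.conj_ofReal]
    push_cast
    rw [← Complex.conj_mul' (coe (v r) z)]
    ring
  rw [h2] at h1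
  rw [← h1.tsum_eq, Complex.ofReal_tsum]

end Pool.MP_501efe_an.H20
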